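import Pool.Agent.BSpi.PSL.Aut

set_option autoImplicit false
set_option linter.unusedSimpArgs false

open Matrix Matrix.SpecialLinearGroup
open scoped MatrixGroups

namespace Pool.Agent.BSpi.PSL

variable {F : Type} [Field F]

/-- Conjugation by an invertible matrix. -/
def cj (g : GL (Fin 2) F) (A : SL(2, F)) : SL(2, F) :=
  ⟨g.1 * A.1 * (g⁻¹).1, by rw [det_units_conj]; exact A.2⟩

/-- A field automorphism acting on matrices of determinant one. -/
def fr (σ : F ≃+* F) (A : SL(2, F)) : SL(2, F) := Matrix.SpecialLinearGroup.map (σ : F →+* F) A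

/-- A field automorphism acting on invertible matrices. -/
def frG (σ : F ≃+* F) (g : GL (Fin 2) F) : GL (Fin 2) F :=
  Matrix.GeneralLinearGroup.map (σ : F →+* F) g

lemma cj_coe (g : GL (Fin 2) F) (A : SL(2, F)) :
    (cj g A : Matrix (Fin 2) (Fin 2) F) = g.1 * A.1 * (g⁻¹).1 := rfl

@[simp] lemma fr_apply (σ : F ≃+* F) (A : SL(2, F)) (i j : Fin 2) : (fr σ A) i j = σ (A i j) := rfl

@[simp] lemma frG_apply (σ : F ≃+* F) (g : GL (Fin 2) F) (i j : Fin 2) :
    (frG σ g) i j = σ (g i j) := rfl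

lemma frG_val (σ : F ≃+* F) (g : GL (Fin 2) F) : (frG σ g).1 = (σ : F →+* F).mapMatrix g.1 := rfl

lemma frG_mulhom (σ : F ≃+* F) (g h : GL (Fin 2) F) : frG σ (g * h) = frG σ g * frG σ h :=
  map_mul _ _ _

lemma frG_inv (σ : F ≃+* F) (g : GL (Fin 2) F) : frG σ g⁻¹ = (frG σ g)⁻¹ :=
  map_inv _ _

lemma frG_one_right (σ : F ≃+* F) : frG σ 1 = 1 := map_one _

lemma frG_one (g : GL (Fin 2) F) : frG 1 g = g := by
  ext i j
  rfl

lemma fr_one (A : SL(2, F)) : fr 1 A = A := by
  apply sl_ext <;> rfl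

lemma frG_mul (σ τ : F ≃+* F) (g : GL (Fin 2) F) : frG (σ * τ) g = frG σ (frG τ g) := by
  ext i j
  rfl

lemma fr_mul (σ τ : F ≃+* F) (A : SL(2, F)) : fr (σ * τ) A = fr σ (fr τ A) := by
  apply sl_ext <;> rfl

lemma coe_inj {A B : SL(2, F)} (h : A.1 = B.1) : A = B := Subtype.ext h

lemma cj_mul (g h : GL (Fin 2) F) (A : SL(2, F)) : cj (g * h) A = cj g (cj h A) := by
  apply coe_inj
  rw [cj_coe, cj_coe, cj_coe, _root_.mul_inv_rev, Units.val_mul, Units.val_mul]
  simp only [mul_assoc]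

lemma cj_one (A : SL(2, F)) : cj 1 A = A := by
  apply coe_inj
  rw [cj_coe, inv_one, Units.val_one, one_mul, mul_one]

lemma fr_cj (σ : F ≃+* F) (g : GL (Fin 2) F) (A : SL(2, F)) :
    fr σ (cj g A) = cj (frG σ g) (fr σ A) := by
  apply coe_inj
  rw [cj_coe, ← frG_inv, frG_val, frG_val]
  change (σ : F →+* F).mapMatrix (g.1 * A.1 * (g⁻¹).1) = _
  rw [map_mul, map_mul]
  rfl

lemma cj_hom (g : GL (Fin 2) F) (A B : SL(2, F)) : cj g (A * B) = cj g A * cj g B := by
  apply coe_inj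
  rw [coe_mul, cj_coe, cj_coe, cj_coe, coe_mul]
  have h : (g⁻¹).1 * g.1 = 1 := by rw [← Units.val_mul, inv_mul_cancel, Units.val_one]
  calc g.1 * (A.1 * B.1) * (g⁻¹).1 = g.1 * A.1 * 1 * (B.1 * (g⁻¹).1) := by
        simp only [mul_assoc, one_mul, mul_one]
    _ = g.1 * A.1 * ((g⁻¹).1 * g.1) * (B.1 * (g⁻¹).1) := by rw [h]
    _ = _ := by simp only [mul_assoc]

lemma fr_hom (σ : F ≃+* F) (A B : SL(2, F)) : fr σ (A * B) = fr σ A * fr σ B := map_mul _ _ _

/-- The automorphism `f` of `PSL(2, F)` is given by the matrix `g` and the field automorphism `σ`. -/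
def Rep (f : MulAut (P F)) (g : GL (Fin 2) F) (σ : F ≃+* F) : Prop :=
  ∀ A : SL(2, F), f (mk A) = mk (cj g (fr σ A))

lemma Rep.mul {f f' : MulAut (P F)} {g g' : GL (Fin 2) F} {σ σ' : F ≃+* F} (h : Rep f g σ)
    (h' : Rep f' g' σ') : Rep (f * f') (g * frG σ g') (σ * σ') := by
  intro A
  rw [MulAut.mul_apply, h', h, fr_cj, cj_mul, fr_mul]

lemma Rep.one : Rep (1 : MulAut (P F)) 1 1 := by
  intro A
  rw [MulAut.one_apply, fr_one, cj_one]

/-- The twisted powers of a matrix. -/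
def nrm (σ : F ≃+* F) (g : GL (Fin 2) F) : ℕ → GL (Fin 2) F
  | 0 => 1
  | k + 1 => nrm σ g k * frG (σ ^ k) g

lemma Rep.pow {f : MulAut (P F)} {g : GL (Fin 2) F} {σ : F ≃+* F} (h : Rep f g σ) (k : ℕ) :
    Rep (f ^ k) (nrm σ g k) (σ ^ k) := by
  induction k with
  | zero => rw [pow_zero, pow_zero]; exact Rep.one
  | succ k ih => rw [pow_succ, pow_succ]; exact ih.mul h

lemma mk_eq_of_trace {A B : SL(2, F)} (h : mk A = mk B) (hA : A 0 0 + A 1 1 = 2)
    (hB : B 0 0 + B 1 1 = 2) : A = B := by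
  rcases mk_eq.1 h with h1 | h1
  · exact h1
  · rw [h1, neg00, neg11] at hA
    have h2 : (2 : F) + 2 = 0 := by linear_combination -hA - hB
    have h3 : (2 : F) = 0 := by
      have : (2 : F) * 2 = 0 := by linear_combination h2
      exact mul_self_eq_zero.1 this
    rw [h1]
    have h4 : ∀ x : F, -x = x := fun x => by linear_combination -x * h3
    apply sl_ext
    · rw [neg00, h4]
    · rw [neg01, h4]
    · rw [neg10, h4]
    · rw [neg11, h4]

lemma trace_cj (g : GL (Fin 2) F) (A : SL(2, F)) :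
    (cj g A) 0 0 + (cj g A) 1 1 = A 0 0 + A 1 1 := by
  have h := Matrix.trace_units_conj g A.1
  rw [← cj_coe, Matrix.trace_fin_two, Matrix.trace_fin_two] at h
  exact h

lemma fr_u (σ : F ≃+* F) (a : F) : fr σ (u a) = u (σ a) := by
  apply sl_ext <;> simp

lemma fr_v (σ : F ≃+* F) (a : F) : fr σ (v a) = v (σ a) := by
  apply sl_ext <;> simp

lemma gl_ne_zero (g : GL (Fin 2) F) : g 0 0 * g 1 1 - g 0 1 * g 1 0 ≠ 0 := by
  have h := (Matrix.isUnit_iff_isUnit_det g.1).1 g.isUnit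
  rw [Matrix.det_fin_two] at h
  exact h.ne_zero

lemma cj_eq {g : GL (Fin 2) F} {A B : SL(2, F)} (h : cj g A = B) : g.1 * A.1 = B.1 * g.1 := by
  rw [← h, cj_coe]
  have h1 : (g⁻¹).1 * g.1 = 1 := by rw [← Units.val_mul, inv_mul_cancel, Units.val_one]
  rw [mul_assoc, h1, mul_one]

/-- The kernel. -/
lemma Rep.kernel {g : GL (Fin 2) F} {σ : F ≃+* F} (h : Rep 1 g σ) :
    σ = 1 ∧ g 0 0 ≠ 0 ∧ g 0 1 = 0 ∧ g 1 0 = 0 ∧ g 1 1 = g 0 0 := by
  have hu : ∀ a, g.1 * (u (σ a)).1 = (u a).1 * g.1 := by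
    intro a
    apply cj_eq
    apply mk_eq_of_trace
    · rw [← fr_u, ← h, MulAut.one_apply]
    · rw [trace_cj, u00, u11]; norm_num
    · rw [u00, u11]; norm_num
  have hv : ∀ a, g.1 * (v (σ a)).1 = (v a).1 * g.1 := by
    intro a
    apply cj_eq
    apply mk_eq_of_trace
    · rw [← fr_v, ← h, MulAut.one_apply]
    · rw [trace_cj, v00, v11]; norm_num
    · rw [v00, v11]; norm_num
  have hu' : ∀ a i j, g i 0 * (u (σ a)) 0 j + g i 1 * (u (σ a)) 1 j =
      (u a) i 0 * g 0 j + (u a) i 1 * g 1 j := by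
    intro a i j
    have h1 := congrFun (congrFun (hu a) i) j
    rw [Matrix.mul_apply, Matrix.mul_apply, Fin.sum_univ_two, Fin.sum_univ_two] at h1
    exact h1
  have hv' : ∀ a i j, g i 0 * (v (σ a)) 0 j + g i 1 * (v (σ a)) 1 j =
      (v a) i 0 * g 0 j + (v a) i 1 * g 1 j := by
    intro a i j
    have h1 := congrFun (congrFun (hv a) i) j
    rw [Matrix.mul_apply, Matrix.mul_apply, Fin.sum_univ_two, Fin.sum_univ_two] at h1
    exact h1
  have e1 := hu' 1 0 0
  have e2 := hu' 1 0 1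
  have e3 := hv' 1 0 0
  simp only [u00, u01, u10, u11, v00, v01, v10, v11, map_one] at e1 e2 e3
  have h10 : g 1 0 = 0 := by linear_combination -e1
  have h01 : g 0 1 = 0 := by linear_combination e3
  have h11 : g 1 1 = g 0 0 := by linear_combination -e2
  have hne := gl_ne_zero g
  rw [h01, h11] at hne
  have h00 : g 0 0 ≠ 0 := by
    intro h0
    apply hne
    rw [h0]
    ring
  refine ⟨?_, h00, h01, h10, h11⟩
  ext a
  have e := hu' a 0 1
  simp only [u00, u01, u10, u11] at e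
  rw [h01, h11] at e
  have h2 : g 0 0 * (σ a - a) = 0 := by linear_combination e
  rcases mul_eq_zero.1 h2 with h3 | h3
  · exact absurd h3 h00
  · exact sub_eq_zero.1 h3

/-- Generation by unipotent matrices. -/
lemma gen (Q : SL(2, F) → Prop) (hu : ∀ a, Q (u a)) (hv : ∀ a, Q (v a))
    (hm : ∀ A B, Q A → Q B → Q (A * B)) (A : SL(2, F)) : Q A := by
  have key : ∀ A : SL(2, F), A 1 0 ≠ 0 → Q A := by
    intro A hc
    have hd := det_eq A
    have h : A = u ((A 0 0 - 1) / A 1 0) * v (A 1 0) * u ((A 1 1 - 1) / A 1 0) := by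
      have hd' : A 0 1 = (A 0 0 * A 1 1 - 1) / A 1 0 := by
        field_simp
        linear_combination -hd
      apply sl_ext
      · simp only [mul00, mul01, mul10, mul11, u00, u01, u10, u11, v00, v01, v10, v11]
        field_simp
        ring
      · simp only [mul00, mul01, mul10, mul11, u00, u01, u10, u11, v00, v01, v10, v11]
        rw [hd']
        field_simp
        ring
      · simp only [mul00, mul01, mul10, mul11, u00, u01, u10, u11, v00, v01, v10, v11]
        ring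
      · simp only [mul00, mul01, mul10, mul11, u00, u01, u10, u11, v00, v01, v10, v11]
        field_simp
        ring
    rw [h]
    exact hm _ _ (hm _ _ (hu _) (hv _)) (hu _)
  by_cases hc : A 1 0 = 0
  · have hd := det_eq A
    rw [hc] at hd
    have h11 : A 1 1 ≠ 0 := by
      intro h0
      rw [h0] at hd
      simp at hd
    have h1 : A = (A * v 1) * v (-1) := by
      rw [mul_assoc, ← v_add, add_neg_cancel, v_zero, mul_one]
    rw [h1]
    refine hm _ _ (key _ ?_) (hv _)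
    simp only [mul10, v00, v10, hc]
    simpa using h11
  · exact key A hc

/-- A matrix of determinant one as an invertible matrix. -/
lemma cj_toGL (A B : SL(2, F)) : cj (A : GL (Fin 2) F) B = A * B * A⁻¹ := by
  apply coe_inj
  rw [cj_coe, coe_mul, coe_mul, ← map_inv]
  rfl

end Pool.Agent.BSpi.PSL
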