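import Pool.Agent.BSpi.PSL.Rep

set_option autoImplicit false
set_option linter.unusedSimpArgs false

open Matrix Matrix.SpecialLinearGroup
open scoped MatrixGroups

namespace Pool.Agent.BSpi.PSL

variable {F : Type} [Field F]

lemma pow_inj {σ : F ≃+* F} {r : ℕ} (hr : r.Prime) (h1 : σ ^ r = 1) (h2 : σ ≠ 1) {i j : ℕ}
    (hi : i < r) (hj : j < r) (h : σ ^ i = σ ^ j) : i = j := by
  have := Fact.mk hr
  have h3 : orderOf σ = r := orderOf_eq_prime h1 h2
  exact pow_injOn_Iio_orderOf (by rw [h3]; exact hi) (by rw [h3]; exact hj) h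

/-- Fixed vectors of semilinear maps of finite order span. -/
lemma fixed_span {V : Type} [AddCommGroup V] [Module F V] {σ : F ≃+* F} {r : ℕ} (hr : r.Prime)
    (h1 : σ ^ r = 1) (h2 : σ ≠ 1) (T : V →+ V) (hT : ∀ (c : F) (x : V), T (c • x) = σ c • T x)
    (hTr : ∀ x, T^[r] x = x) (φ : V →ₗ[F] F) (hφ : ∀ x, T x = x → φ x = 0) (x : V) : φ x = 0 := by
  have hit : ∀ (k : ℕ) (c : F) (y : V), T^[k] (c • y) = (σ ^ k) c • T^[k] y := by
    intro k
    induction k with
    | zero => intro c y; rfl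
    | succ k ih =>
      intro c y
      rw [Function.iterate_succ_apply', ih, hT, Function.iterate_succ_apply', pow_succ']
      rfl
  have hsum : ∀ c : F, ∑ i ∈ Finset.range r, (σ ^ i) c * φ (T^[i] x) = 0 := by
    intro c
    have hfix : T (∑ i ∈ Finset.range r, T^[i] (c • x)) = ∑ i ∈ Finset.range r, T^[i] (c • x) := by
      rw [map_sum]
      have h3 : ∀ i ∈ Finset.range r, T (T^[i] (c • x)) = T^[i + 1] (c • x) := by
        intro i _
        rw [Function.iterate_succ_apply']
      rw [Finset.sum_congr rfl h3]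
      have h4 := Finset.sum_range_succ (fun i => T^[i] (c • x)) r
      have h5 := Finset.sum_range_succ' (fun i => T^[i] (c • x)) r
      rw [h4] at h5
      simp only [hTr, Function.iterate_zero, id_eq] at h5
      exact (add_right_cancel h5).symm
    have h6 := hφ _ hfix
    rw [map_sum] at h6
    rw [← h6]
    refine Finset.sum_congr rfl fun i _ => ?_
    rw [hit, map_smul, smul_eq_mul]
  -- independence of characters
  have hind := (linearIndependent_monoidHom F F).comp
    (fun i : Fin r => (((σ ^ (i : ℕ) : F ≃+* F) : F →+* F) : F →* F)) (by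
      intro i j hij
      apply Fin.ext
      refine pow_inj hr h1 h2 i.2 j.2 ?_
      ext c
      exact congrArg (fun f : F →* F => f c) hij)
  rw [Fintype.linearIndependent_iff] at hind
  have h7 := hind (fun i => φ (T^[(i : ℕ)] x)) (by
    funext c
    rw [Finset.sum_apply]
    have h8 := hsum c
    rw [← Fin.sum_univ_eq_sum_range (fun i => (σ ^ i) c * φ (T^[i] x)) r] at h8
    refine Eq.trans ?_ h8
    refine Finset.sum_congr rfl fun i _ => ?_
    rw [Pi.smul_apply, smul_eq_mul, mul_comm]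
    rfl) ⟨0, hr.pos⟩
  exact h7

/-- The norm. -/
def nm (σ : F ≃+* F) (x : F) (k : ℕ) : F := ∏ i ∈ Finset.range k, (σ ^ i) x

lemma nm_succ (σ : F ≃+* F) (x : F) (k : ℕ) : nm σ x (k + 1) = nm σ x k * (σ ^ k) x :=
  Finset.prod_range_succ _ _

lemma nm_succ' (σ : F ≃+* F) (x : F) (k : ℕ) : nm σ x (k + 1) = σ (nm σ x k) * x := by
  rw [nm, Finset.prod_range_succ', nm, map_prod]
  congr 1
  refine Finset.prod_congr rfl fun i _ => ?_
  rw [pow_succ']
  rfl

lemma nm_mul (σ : F ≃+* F) (x y : F) (k : ℕ) : nm σ (x * y) k = nm σ x k * nm σ y k := by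
  rw [nm, nm, nm, ← Finset.prod_mul_distrib]
  refine Finset.prod_congr rfl fun i _ => map_mul _ _ _

lemma nm_ne_zero (σ : F ≃+* F) {x : F} (hx : x ≠ 0) (k : ℕ) : nm σ x k ≠ 0 := by
  rw [nm, Finset.prod_ne_zero_iff]
  intro i _
  exact (map_ne_zero_iff _ (σ ^ i).injective).2 hx

lemma nm_fixed {σ : F ≃+* F} {r : ℕ} (h1 : σ ^ r = 1) {x : F} (hx : x ≠ 0) :
    σ (nm σ x r) = nm σ x r := by
  have h2 := nm_succ σ x r
  rw [nm_succ', h1] at h2
  exact mul_right_cancel₀ hx h2

/-- Hilbert's theorem 90. -/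
lemma hilbert {σ : F ≃+* F} {r : ℕ} (hr : r.Prime) (h1 : σ ^ r = 1) (h2 : σ ≠ 1) {x : F}
    (hx : nm σ x r = 1) : ∃ y : F, y ≠ 0 ∧ x * σ y = y := by
  by_contra hcon
  push Not at hcon
  let T : F →+ F := (AddMonoidHom.mulLeft x).comp (σ : F →+* F).toAddMonoidHom
  have hTa : ∀ y, T y = x * σ y := fun y => rfl
  have hit : ∀ (k : ℕ) (y : F), T^[k] y = nm σ x k * (σ ^ k) y := by
    intro k
    induction k with
    | zero => intro y; simp [nm]
    | succ k ih =>
      intro y
      rw [Function.iterate_succ_apply', ih, hTa, nm_succ', pow_succ', map_mul]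
      change _ = _ * σ ((σ ^ k) y)
      ring
  have h3 := fixed_span hr h1 h2 T (fun c y => by
      rw [hTa, hTa, smul_eq_mul, smul_eq_mul, map_mul]; ring)
    (fun y => by rw [hit, hx, h1, one_mul]; rfl) (LinearMap.id) (fun y hy => by
      by_contra hy0
      exact hcon y hy0 hy) 1
  exact one_ne_zero h3

/-- The norm is surjective. -/
lemma nm_surj [Finite F] {σ : F ≃+* F} {r : ℕ} (hr : r.Prime) (h1 : σ ^ r = 1) (h2 : σ ≠ 1) {x : F}
    (hx0 : x ≠ 0) (hx : σ x = x) : ∃ y : F, y ≠ 0 ∧ nm σ y r = x := by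
  let N : Fˣ →* Fˣ :=
    { toFun := fun y => Units.mk0 (nm σ y r) (nm_ne_zero σ y.ne_zero r)
      map_one' := by
        apply Units.ext
        simp [nm]
      map_mul' := fun a b => by
        apply Units.ext
        exact nm_mul σ a b r }
  let D : Fˣ →* Fˣ := (MonoidHom.id Fˣ) / (Units.map (σ : F →* F))
  have hDa : ∀ y : Fˣ, ((D y : Fˣ) : F) = y / σ y := by
    intro y
    change ((y / (Units.map (σ : F →* F)) y : Fˣ) : F) = _
    rw [Units.val_div_eq_div_val]
    rfl
  have hN : Nat.card N.ker * Nat.card N.range = Nat.card Fˣ := by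
    rw [← Subgroup.index_ker]; exact Subgroup.card_mul_index _
  have hD : Nat.card D.ker * Nat.card D.range = Nat.card Fˣ := by
    rw [← Subgroup.index_ker]; exact Subgroup.card_mul_index _
  have hle : N.ker ≤ D.range := by
    intro a ha
    rw [MonoidHom.mem_ker] at ha
    have h3 : nm σ a r = 1 := congrArg Units.val ha
    obtain ⟨y, hy0, hy⟩ := hilbert hr h1 h2 h3
    refine ⟨Units.mk0 y hy0, ?_⟩
    apply Units.ext
    rw [hDa]
    have h4 : σ y ≠ 0 := (map_ne_zero_iff _ σ.injective).2 hy0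
    change y / σ y = a
    rw [div_eq_iff h4]
    exact hy.symm
  have hle2 : N.range ≤ D.ker := by
    rintro _ ⟨a, rfl⟩
    rw [MonoidHom.mem_ker]
    apply Units.ext
    rw [hDa]
    have h3 : ((N a : Fˣ) : F) = nm σ a r := rfl
    rw [h3, nm_fixed h1 a.ne_zero, div_self (nm_ne_zero σ a.ne_zero r)]
    rfl
  have hc : Nat.card N.ker ≤ Nat.card D.range := Nat.card_le_card_of_injective
    (Subgroup.inclusion hle) (Subgroup.inclusion_injective hle)
  have hc2 : Nat.card D.ker ≤ Nat.card N.range := by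
    have h5 : Nat.card D.ker * Nat.card D.range ≤ Nat.card N.range * Nat.card D.range := by
      rw [hD, ← hN, mul_comm (Nat.card N.range)]
      exact Nat.mul_le_mul_right _ hc
    exact Nat.le_of_mul_le_mul_right h5 Nat.card_pos
  have heq : N.range = D.ker := Subgroup.eq_of_le_of_card_ge hle2 hc2
  have hxD : Units.mk0 x hx0 ∈ D.ker := by
    rw [MonoidHom.mem_ker]
    apply Units.ext
    rw [hDa]
    change x / σ x = 1
    rw [hx, div_self hx0]
  rw [← heq] at hxD
  obtain ⟨y, hy⟩ := hxD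
  exact ⟨y, y.ne_zero, congrArg Units.val hy⟩

lemma sq_mul [Finite F] (σ : F ≃+* F) (y : F) : IsSquare (y * σ y) := by
  have := Fintype.ofFinite F
  by_cases hy : y = 0
  · rw [hy, zero_mul]; exact ⟨0, by ring⟩
  by_cases h2 : ringChar F = 2
  · exact FiniteField.isSquare_of_char_two h2 _
  · have h3 : σ y ≠ 0 := (map_ne_zero_iff _ σ.injective).2 hy
    rw [FiniteField.isSquare_iff h2 (mul_ne_zero hy h3), mul_pow, ← map_pow]
    rcases FiniteField.pow_dichotomy h2 hy with h | h
    · rw [h, map_one, one_mul]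
    · rw [h, map_neg, map_one]
      ring

/-- The norm of odd degree does not change the square class. -/
lemma nm_sq [Finite F] (σ : F ≃+* F) (x : F) (m : ℕ) : IsSquare (nm σ x (2 * m + 1) * x) := by
  induction m with
  | zero =>
    refine ⟨x, ?_⟩
    simp [nm]
  | succ m ih =>
    have h1 : 2 * (m + 1) + 1 = (2 * m + 1) + 1 + 1 := by ring
    rw [h1, nm_succ, nm_succ]
    have h2 := sq_mul σ ((σ ^ (2 * m + 1)) x)
    have h3 : (σ ^ (2 * m + 1 + 1)) x = σ ((σ ^ (2 * m + 1)) x) := by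
      rw [pow_succ' σ (2 * m + 1)]
      rfl
    rw [h3]
    have h5 : nm σ x (2 * m + 1) * (σ ^ (2 * m + 1)) x * σ ((σ ^ (2 * m + 1)) x) * x =
        nm σ x (2 * m + 1) * x * ((σ ^ (2 * m + 1)) x * σ ((σ ^ (2 * m + 1)) x)) := by ring
    rw [h5]
    exact ih.mul h2

end Pool.Agent.BSpi.PSL
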