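import Pool.Agent.BSpi.PSL.Base

set_option autoImplicit false

open Matrix Matrix.SpecialLinearGroup
open scoped MatrixGroups

namespace Pool.Agent.BSpi

/-- `r`-subgroups of images lift to `r`-subgroups. -/
lemma sylow_onto {N Q : Type} [Group N] [Finite N] [Group Q] {r : ℕ} (hr : r.Prime) (f : N →* Q)
    (hf : Function.Surjective f) (P : Subgroup Q) (hP : IsPGroup r P) :
    ∃ R : Subgroup N, IsPGroup r R ∧ R.map f = P := by
  have := Fact.mk hr
  let H : Subgroup N := P.comap f
  obtain ⟨R⟩ : Nonempty (Sylow r H) := inferInstance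
  let g : H →* P := (f.subgroupComap P)
  have hg : Function.Surjective g := by
    rintro ⟨p, hp⟩
    obtain ⟨n, rfl⟩ := hf p
    exact ⟨⟨n, hp⟩, rfl⟩
  have hR : (R : Subgroup H).map g = ⊤ := by
    have hPf : Finite P := Finite.of_surjective g hg
    have h1 : ¬ r ∣ (R : Subgroup H).index := R.not_dvd_index
    have h2 : ((R : Subgroup H).map g).index ∣ (R : Subgroup H).index :=
      Subgroup.index_map_dvd _ hg
    obtain ⟨k, hk⟩ := hP.exists_card_eq
    have h3 : ((R : Subgroup H).map g).index ∣ r ^ k := hk ▸ Subgroup.index_dvd_card _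
    obtain ⟨j, hj, hj2⟩ := (Nat.dvd_prime_pow hr).1 h3
    rcases Nat.eq_zero_or_pos j with h0 | h0
    · rw [h0, pow_zero] at hj2
      exact Subgroup.index_eq_one.1 hj2
    · exfalso
      apply h1
      refine dvd_trans ?_ h2
      rw [hj2]
      exact dvd_pow_self r (by omega)
  refine ⟨(R : Subgroup H).map H.subtype, R.isPGroup'.map _, ?_⟩
  ext x
  constructor
  · rintro ⟨_, ⟨y, _, rfl⟩, rfl⟩
    exact y.2
  · intro hx
    have h3 : (⟨x, hx⟩ : P) ∈ (R : Subgroup H).map g := by rw [hR]; trivial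
    obtain ⟨y, hy, hyx⟩ := h3
    exact ⟨y, ⟨y, hy, rfl⟩, congrArg Subtype.val hyx⟩

namespace PSL

variable {F : Type} [Field F] [Finite F] {p : ℕ} [hp : Fact p.Prime] [CharP F p]

/-- `p`-subgroups of `SL(2, F)` are conjugate to subgroups of the upper unipotent group. -/
lemma pgroup_sl (R : Subgroup SL(2, F)) (hR : IsPGroup p R) :
    ∃ A : SL(2, F), ∀ x ∈ R, ∃ a : F, A⁻¹ * x * A = u a := by
  have hcard : p ∣ Nat.card (Fin 2 → F) := by
    rw [Nat.card_fun, Nat.card_eq_fintype_card (α := Fin 2), Fintype.card_fin]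
    have := Fintype.ofFinite F
    rw [Nat.card_eq_fintype_card]
    exact dvd_pow ((CharP.cast_eq_zero_iff F p _).1 (Nat.cast_card_eq_zero F)) (by norm_num)
  have h0 : (0 : Fin 2 → F) ∈ MulAction.fixedPoints R (Fin 2 → F) := fun x => smul_zero x
  obtain ⟨w, hw, hw0⟩ := hR.exists_fixed_point_of_prime_dvd_card_of_fixed_point _ hcard h0
  have hfix : ∀ x ∈ R, x 0 0 * w 0 + x 0 1 * w 1 = w 0 ∧ x 1 0 * w 0 + x 1 1 * w 1 = w 1 := by
    intro x hx
    have h1 : (⟨x, hx⟩ : R) • w = w := hw ⟨x, hx⟩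
    have h2 : (x : Matrix (Fin 2) (Fin 2) F).mulVec w = w := h1
    constructor
    · have := congrFun h2 0
      rw [Matrix.mulVec, dotProduct, Fin.sum_univ_two] at this
      exact this
    · have := congrFun h2 1
      rw [Matrix.mulVec, dotProduct, Fin.sum_univ_two] at this
      exact this
  obtain ⟨A, hA0, hA1⟩ : ∃ A : SL(2, F), A 0 0 = w 0 ∧ A 1 0 = w 1 := by
    by_cases h1 : w 0 = 0
    · have h2 : w 1 ≠ 0 := by
        intro h2
        apply hw0
        ext i
        fin_cases i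
        · exact h1.symm
        · exact h2.symm
      exact ⟨sl 0 (-(w 1)⁻¹) (w 1) 0 (by field_simp; ring), h1.symm, rfl⟩
    · exact ⟨sl (w 0) 0 (w 1) (w 0)⁻¹ (by field_simp; ring), rfl, rfl⟩
  refine ⟨A, fun x hx => ⟨(A⁻¹ * x * A) 0 1, ?_⟩⟩
  obtain ⟨h1, h2⟩ := hfix x hx
  rw [← hA0, ← hA1] at h1 h2
  have hd := det_eq A
  have e00 : (A⁻¹ * x * A) 0 0 = 1 := by
    rw [mul_assoc]
    simp only [mul00, mul10, inv00, inv01]
    rw [h1, h2]
    linear_combination hd
  have e10 : (A⁻¹ * x * A) 1 0 = 0 := by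
    rw [mul_assoc]
    simp only [mul00, mul10, inv10, inv11]
    rw [h1, h2]
    ring
  have e11 : (A⁻¹ * x * A) 1 1 = 1 := by
    have := det_eq (A⁻¹ * x * A)
    rw [e00, e10] at this
    linear_combination this
  exact sl_ext e00 rfl e10 e11

lemma pgroup_psl (Q : Subgroup (P F)) (hQ : IsPGroup p Q) :
    ∃ s : P F, ∀ x ∈ Q, ∃ a : F, s⁻¹ * x * s = mk (u a) := by
  obtain ⟨R, hR, hRQ⟩ := sylow_onto hp.out mk mk_surjective Q hQ
  obtain ⟨A, hA⟩ := pgroup_sl R hR
  refine ⟨mk A, fun x hx => ?_⟩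
  rw [← hRQ] at hx
  obtain ⟨y, hy, rfl⟩ := hx
  obtain ⟨a, ha⟩ := hA y hy
  exact ⟨a, by rw [← ha, map_mul, map_mul, map_inv]⟩

/-- The upper unipotent group. -/
noncomputable def uHom (F : Type) [Field F] : Multiplicative F →* SL(2, F) where
  toFun a := u (Multiplicative.toAdd a)
  map_one' := u_zero
  map_mul' a b := u_add (Multiplicative.toAdd a) (Multiplicative.toAdd b)

/-- The lower unipotent group. -/
noncomputable def vHom (F : Type) [Field F] : Multiplicative F →* SL(2, F) where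
  toFun a := v (Multiplicative.toAdd a)
  map_one' := v_zero
  map_mul' a b := v_add (Multiplicative.toAdd a) (Multiplicative.toAdd b)

omit [Finite F] hp in
lemma pgroup_range (g : Multiplicative F →* P F) : IsPGroup p g.range := by
  rintro ⟨x, a, ha⟩
  refine ⟨1, Subtype.ext ?_⟩
  have h1 : a ^ p = 1 := by
    apply Multiplicative.toAdd.injective
    rw [toAdd_pow]
    change p • (Multiplicative.toAdd a) = 0
    rw [nsmul_eq_mul, CharP.cast_eq_zero, zero_mul]
  rw [Subgroup.coe_pow, pow_one]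
  change x ^ p = 1
  rw [← ha, ← map_pow, h1, map_one]

omit [Finite F] in
lemma mk_u_inj {a b : F} (h : mk (u a) = mk (u b)) : a = b := by
  rcases mk_eq.1 h with h1 | h1
  · have := congrArg (fun A : SL(2, F) => A 0 1) h1
    simpa using this
  · have e00 := congrArg (fun A : SL(2, F) => A 0 0) h1
    have e01 := congrArg (fun A : SL(2, F) => A 0 1) h1
    simp only [u00, neg00, u01, neg01] at e00 e01
    -- `1 = -1`, so `-b = b`
    calc a = -b := e01
      _ = (-1) * b := by ring
      _ = 1 * b := by rw [← e00]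
      _ = b := one_mul b

omit [Finite F] in
lemma mk_v_inj {a b : F} (h : mk (v a) = mk (v b)) : a = b := by
  rcases mk_eq.1 h with h1 | h1
  · have := congrArg (fun A : SL(2, F) => A 1 0) h1
    simpa using this
  · have e00 := congrArg (fun A : SL(2, F) => A 0 0) h1
    have e01 := congrArg (fun A : SL(2, F) => A 1 0) h1
    simp only [v00, neg00, v10, neg10] at e00 e01
    calc a = -b := e01
      _ = (-1) * b := by ring
      _ = 1 * b := by rw [← e00]
      _ = b := one_mul b

omit [Finite F] in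
lemma v_ne_u (a : F) : mk (v 1) ≠ mk (u a) := by
  intro h
  rcases mk_eq.1 h with h1 | h1
  · have := congrArg (fun A : SL(2, F) => A 1 0) h1
    simp at this
  · have := congrArg (fun A : SL(2, F) => A 1 0) h1
    simp at this

/-- After composing with an inner automorphism, an automorphism preserves the upper and the lower
unipotent group. -/
lemma normalize (p : ℕ) [Fact p.Prime] [CharP F p] (f : MulAut (P F)) :
    ∃ s : P F, (∀ a : F, ∃ b : F, s⁻¹ * f (mk (u a)) * s = mk (u b)) ∧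
      ∀ a : F, ∃ b : F, s⁻¹ * f (mk (v a)) * s = mk (v b) := by
  obtain ⟨s1, hs1⟩ := pgroup_psl (p := p) _
    (pgroup_range (f.toMonoidHom.comp ((mk : SL(2, F) →* P F).comp (uHom F))))
  obtain ⟨s2, hs2⟩ := pgroup_psl (p := p) _
    (pgroup_range (f.toMonoidHom.comp ((mk : SL(2, F) →* P F).comp (vHom F))))
  have hU : ∀ a : F, ∃ b : F, s1⁻¹ * f (mk (u a)) * s1 = mk (u b) := fun a =>
    hs1 _ ⟨Multiplicative.ofAdd a, rfl⟩
  have hV : ∀ a : F, ∃ b : F, s2⁻¹ * f (mk (v a)) * s2 = mk (u b) := fun a =>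
    hs2 _ ⟨Multiplicative.ofAdd a, rfl⟩
  obtain ⟨A, hA⟩ := mk_surjective (s1⁻¹ * s2)
  have hs2' : s2 = s1 * mk A := by rw [hA]; group
  -- `f V` is contained in `s1 A U A⁻¹ s1⁻¹`
  have hV' : ∀ a : F, ∃ b : F, s1⁻¹ * f (mk (v a)) * s1 = mk (A * u b * A⁻¹) := by
    intro a
    obtain ⟨b, hb⟩ := hV a
    refine ⟨b, ?_⟩
    rw [map_mul, map_mul, map_inv, ← hb, hs2']
    group
  have hc : A 1 0 ≠ 0 := by
    intro hc
    -- then `f V ⊆ f U`
    choose b hb using hU
    have hbinj : Function.Injective b := by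
      intro x y hxy
      have h1 : s1⁻¹ * f (mk (u x)) * s1 = s1⁻¹ * f (mk (u y)) * s1 := by
        rw [hb, hb, hxy]
      have h2 := mul_left_cancel (mul_right_cancel h1)
      exact mk_u_inj (f.injective h2)
    obtain ⟨t, ht⟩ := hV' 1
    have h3 : A * u t * A⁻¹ = u (A 0 0 * A 0 0 * t) := by
      have hd := det_eq A
      rw [hc] at hd
      apply sl_ext
      · simp only [mul00, mul01, u00, u01, u10, u11, inv00, inv10, hc]
        linear_combination hd
      · simp only [mul00, mul01, u00, u01, u10, u11, inv01, inv11, hc]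
        ring
      · simp only [mul10, mul11, u00, u01, u10, u11, inv00, inv10, hc]
        ring
      · simp only [mul10, mul11, u00, u01, u10, u11, inv01, inv11, hc]
        linear_combination hd
    obtain ⟨x, hx⟩ := (Finite.injective_iff_surjective.1 hbinj) (A 0 0 * A 0 0 * t)
    rw [h3, ← hx, ← hb] at ht
    have h2 := mul_left_cancel (mul_right_cancel ht)
    exact v_ne_u x (f.injective h2)
  refine ⟨s1 * mk (u (A 0 0 / A 1 0)), fun a => ?_, fun a => ?_⟩
  · obtain ⟨b, hb⟩ := hU a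
    refine ⟨b, ?_⟩
    rw [_root_.mul_inv_rev]
    have h1 : (mk (u (A 0 0 / A 1 0)))⁻¹ * s1⁻¹ * f (mk (u a)) * (s1 * mk (u (A 0 0 / A 1 0))) =
        (mk (u (A 0 0 / A 1 0)))⁻¹ * (s1⁻¹ * f (mk (u a)) * s1) * mk (u (A 0 0 / A 1 0)) := by
      group
    rw [h1, hb, ← map_inv, ← map_mul, ← map_mul]
    congr 1
    rw [mul_assoc, ← u_add, add_comm, u_add, inv_mul_cancel_left]
  · obtain ⟨b, hb⟩ := hV' a
    refine ⟨-(A 1 0 * A 1 0 * b), ?_⟩
    rw [_root_.mul_inv_rev]
    have h1 : (mk (u (A 0 0 / A 1 0)))⁻¹ * s1⁻¹ * f (mk (v a)) * (s1 * mk (u (A 0 0 / A 1 0))) =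
        (mk (u (A 0 0 / A 1 0)))⁻¹ * (s1⁻¹ * f (mk (v a)) * s1) * mk (u (A 0 0 / A 1 0)) := by
      group
    rw [h1, hb, ← map_inv, ← map_mul, ← map_mul]
    congr 1
    have hd := det_eq A
    have hd' : A 0 1 = (A 0 0 * A 1 1 - 1) / A 1 0 := by
      field_simp
      linear_combination -hd
    apply sl_ext
    · simp only [mul00, mul01, mul10, mul11, u00, u01, u10, u11, inv00, inv01, inv10, inv11, v00]
      rw [hd']
      field_simp
      ring
    · simp only [mul00, mul01, mul10, mul11, u00, u01, u10, u11, inv00, inv01, inv10, inv11, v01]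
      rw [hd']
      field_simp
      ring
    · simp only [mul00, mul01, mul10, mul11, u00, u01, u10, u11, inv00, inv01, inv10, inv11, v10]
      ring
    · simp only [mul00, mul01, mul10, mul11, u00, u01, u10, u11, inv00, inv01, inv10, inv11, v11]
      rw [hd']
      field_simp
      ring

end PSL

end Pool.Agent.BSpi
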