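import Pool.Agent.BSpi.PSL.Sylow

set_option autoImplicit false
set_option linter.unusedSimpArgs false

open Matrix Matrix.SpecialLinearGroup
open scoped MatrixGroups

namespace Pool.Agent.BSpi.PSL

variable {F : Type} [Field F]

lemma n_eq (a : F) (ha : a ≠ 0) : u a * v (-a⁻¹) * u a = n a ha := by
  apply sl_ext
  · simp only [mul00, mul01, u00, u01, u10, u11, v00, v01, v10, v11, n, sl00]
    field_simp
    ring
  · simp only [mul00, mul01, u00, u01, u10, u11, v00, v01, v10, v11, n, sl01]
    field_simp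
    ring
  · simp only [mul10, mul11, u00, u01, u10, u11, v00, v01, v10, v11, n, sl10]
    ring
  · simp only [mul10, mul11, u00, u01, u10, u11, v00, v01, v10, v11, n, sl11]
    field_simp
    ring

lemma n_conj (a : F) (ha : a ≠ 0) (t : F) : n a ha * u t * (n a ha)⁻¹ = v (-(a⁻¹ * a⁻¹ * t)) := by
  apply sl_ext
  · simp only [mul00, mul01, mul10, mul11, u00, u01, u10, u11, inv00, inv01, inv10, inv11, n, sl00,
      sl01, sl10, sl11, v00]
    field_simp
    ring
  · simp only [mul00, mul01, mul10, mul11, u00, u01, u10, u11, inv00, inv01, inv10, inv11, n, sl00,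
      sl01, sl10, sl11, v01]
    ring
  · simp only [mul00, mul01, mul10, mul11, u00, u01, u10, u11, inv00, inv01, inv10, inv11, n, sl00,
      sl01, sl10, sl11, v10]
    ring
  · simp only [mul00, mul01, mul10, mul11, u00, u01, u10, u11, inv00, inv01, inv10, inv11, n, sl00,
      sl01, sl10, sl11, v11]
    field_simp
    ring

/-- If `x` conjugates a nontrivial upper unipotent element to a lower one then `x₀₀ = 0`. -/
lemma anti {x : SL(2, F)} {t c : F} (ht : t ≠ 0)
    (h : mk x * mk (u t) * (mk x)⁻¹ = mk (v c)) : x 0 0 = 0 := by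
  rw [← map_inv, ← map_mul, ← map_mul] at h
  have h1 : (x * u t * x⁻¹) 0 1 = 0 := by
    rcases mk_eq.1 h with h2 | h2
    · rw [h2, v01]
    · rw [h2, neg01, v01, neg_zero]
  simp only [mul00, mul01, u00, u01, u10, u11, inv01, inv11] at h1
  have h2 : t * (x 0 0 * x 0 0) = 0 := by linear_combination h1
  rcases mul_eq_zero.1 h2 with h3 | h3
  · exact absurd h3 ht
  · exact mul_self_eq_zero.1 h3

lemma sum_sq [Finite F] (x : F) : ∃ a b : F, a * a + b * b = x := by
  have := Fintype.ofFinite F
  by_cases h2 : ringChar F = 2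
  · obtain ⟨a, ha⟩ := FiniteField.isSquare_of_char_two h2 x
    exact ⟨a, 0, by rw [mul_zero, add_zero, ha]⟩
  · have hodd : Fintype.card F % 2 = 1 := FiniteField.odd_card_of_char_ne_two h2
    obtain ⟨a, b, hab⟩ := FiniteField.exists_root_sum_quadratic (R := F)
      (f := Polynomial.X ^ 2) (g := Polynomial.X ^ 2 - Polynomial.C x) (Polynomial.degree_X_pow 2)
      (Polynomial.degree_X_pow_sub_C (by norm_num) x) hodd
    refine ⟨a, b, ?_⟩
    simp only [Polynomial.eval_pow, Polynomial.eval_X, Polynomial.eval_sub, Polynomial.eval_C] at hab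
    linear_combination hab

lemma v_neg (a : F) : v (-a) = (v a)⁻¹ := by
  apply sl_ext <;> simp

/-- Automorphisms preserving the upper and the lower unipotent group are semilinear on them. -/
lemma semilinear [Finite F] (f : MulAut (P F))
    (hu : ∀ a : F, ∃ b : F, f (mk (u a)) = mk (u b))
    (hv : ∀ a : F, ∃ b : F, f (mk (v a)) = mk (v b)) :
    ∃ (α : F) (σ : F ≃+* F), α ≠ 0 ∧ (∀ a, f (mk (u a)) = mk (u (α * σ a))) ∧
      ∀ c, f (mk (v c)) = mk (v (α⁻¹ * σ c)) := by
  choose A hA using hu
  choose B hB using hv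
  have hAadd : ∀ a b, A (a + b) = A a + A b := by
    intro a b
    apply mk_u_inj
    rw [← hA, u_add, map_mul, map_mul, hA, hA, ← map_mul, ← u_add]
  have hBadd : ∀ a b, B (a + b) = B a + B b := by
    intro a b
    apply mk_v_inj
    rw [← hB, v_add, map_mul, map_mul, hB, hB, ← map_mul, ← v_add]
  have hAinj : Function.Injective A := by
    intro a b h
    apply mk_u_inj
    apply f.injective
    rw [hA, hA, h]
  have hA0 : A 0 = 0 := by
    have := hAadd 0 0
    rw [add_zero] at this
    linear_combination -this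
  have hB0 : B 0 = 0 := by
    have := hBadd 0 0
    rw [add_zero] at this
    linear_combination -this
  have hBneg : ∀ a, B (-a) = -B a := by
    intro a
    have := hBadd a (-a)
    rw [add_neg_cancel, hB0] at this
    linear_combination -this
  have hAne : ∀ a, a ≠ 0 → A a ≠ 0 := fun a ha h => ha (hAinj (h.trans hA0.symm))
  have hA1 : A 1 ≠ 0 := hAne 1 one_ne_zero
  have hfn : ∀ a (ha : a ≠ 0), f (mk (n a ha)) = mk (u (A a) * v (-B a⁻¹) * u (A a)) := by
    intro a ha
    rw [← n_eq, map_mul, map_mul, map_mul, map_mul, hA, hB, hBneg, ← map_mul, ← map_mul]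
  have hAB : ∀ a, a ≠ 0 → A a * B a⁻¹ = 1 := by
    intro a ha
    have h1 : mk (n a ha) * mk (u 1) * (mk (n a ha))⁻¹ = mk (v (-(a⁻¹ * a⁻¹ * 1))) := by
      rw [← map_inv, ← map_mul, ← map_mul, n_conj]
    have h2 := congrArg f h1
    rw [map_mul, map_mul, map_inv, hfn, hA, hB] at h2
    have h3 := anti hA1 h2
    simp only [mul00, mul01, u00, u01, u10, v00, v01, v10, v11] at h3
    linear_combination -h3
  have hfn' : ∀ a (ha : a ≠ 0), f (mk (n a ha)) = mk (n (A a) (hAne a ha)) := by
    intro a ha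
    rw [hfn a ha, ← n_eq]
    congr 4
    have := hAB a ha
    rw [eq_comm, inv_eq_of_mul_eq_one_right this]
  have hsq : ∀ a b, a ≠ 0 → A (a * a * b) = (A a / A 1) * (A a / A 1) * A b := by
    intro a b ha
    have h1 : n a ha * (n 1 one_ne_zero)⁻¹ * u b * (n a ha * (n 1 one_ne_zero)⁻¹)⁻¹ =
        u (a * a * b) := by
      apply sl_ext <;>
      simp only [mul00, mul01, mul10, mul11, u00, u01, u10, u11, inv00, inv01, inv10, inv11, n,
        sl00, sl01, sl10, sl11] <;> field_simp <;> ring
    have h2 : n (A a) (hAne a ha) * (n (A 1) hA1)⁻¹ * u (A b) *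
        (n (A a) (hAne a ha) * (n (A 1) hA1)⁻¹)⁻¹ = u ((A a / A 1) * (A a / A 1) * A b) := by
      have h3 := hAne a ha
      apply sl_ext <;>
      simp only [mul00, mul01, mul10, mul11, u00, u01, u10, u11, inv00, inv01, inv10, inv11, n,
        sl00, sl01, sl10, sl11] <;> field_simp <;> ring
    apply mk_u_inj
    rw [← hA, ← h1, ← h2]
    simp only [map_mul, map_inv, hfn', hA]
  -- the field automorphism
  let s : F → F := fun x => A x / A 1
  have hs1 : s 1 = 1 := div_self hA1
  have hsadd : ∀ a b, s (a + b) = s a + s b := fun a b => by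
    change A (a + b) / A 1 = A a / A 1 + A b / A 1
    rw [hAadd, add_div]
  have hs0 : s 0 = 0 := by
    change A 0 / A 1 = 0
    rw [hA0, zero_div]
  have hsm0 : ∀ a b, s (a * a * b) = s a * s a * s b := by
    intro a b
    by_cases ha : a = 0
    · rw [ha, zero_mul, zero_mul, hs0, zero_mul, zero_mul]
    · change A (a * a * b) / A 1 = (A a / A 1) * (A a / A 1) * (A b / A 1)
      rw [hsq a b ha]
      ring
  have hsm1 : ∀ a, s (a * a) = s a * s a := by
    intro a
    have := hsm0 a 1
    rwa [mul_one, hs1, mul_one] at this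
  have hsm : ∀ x b, s (x * b) = s x * s b := by
    intro x b
    obtain ⟨c, d, rfl⟩ := sum_sq x
    rw [add_mul, hsadd, hsm0, hsm0, hsadd, hsm1, hsm1]
    ring
  let σ0 : F →+* F :=
    { toFun := s
      map_one' := hs1
      map_mul' := hsm
      map_zero' := hs0
      map_add' := hsadd }
  have hσ0 : Function.Bijective σ0 := Finite.injective_iff_bijective.1 σ0.injective
  let σ : F ≃+* F := RingEquiv.ofBijective σ0 hσ0
  have hσ : ∀ x, σ x = A x / A 1 := fun x => rfl
  refine ⟨A 1, σ, hA1, fun a => ?_, fun c => ?_⟩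
  · rw [hA, hσ]
    congr 2
    field_simp
  · rw [hB]
    congr 2
    by_cases hc : c = 0
    · rw [hc, hB0, map_zero, mul_zero]
    · have h1 := hAB c⁻¹ (inv_ne_zero hc)
      rw [inv_inv] at h1
      have h2 : σ c⁻¹ = A c⁻¹ / A 1 := hσ _
      have h3 : σ c = A 1 / A c⁻¹ := by
        rw [← _root_.inv_inj, ← map_inv₀, h2, inv_div]
      rw [h3]
      have h4 := hAne c⁻¹ (inv_ne_zero hc)
      generalize A c⁻¹ = x at h1 h4
      rw [eq_comm, ← inv_eq_of_mul_eq_one_right h1]
      field_simp

end Pool.Agent.BSpi.PSL
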