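import Mathlib

set_option autoImplicit false

open Matrix Matrix.SpecialLinearGroup
open scoped MatrixGroups

namespace Pool.Agent.BSpi.PSL

variable {F : Type} [Field F]

/-- The group `PSL(2, F)`. -/
abbrev P (F : Type) [Field F] : Type := Matrix.ProjectiveSpecialLinearGroup (Fin 2) F

/-- The projection. -/
def mk : SL(2, F) →* P F := QuotientGroup.mk' _

lemma mk_surjective : Function.Surjective (mk : SL(2, F) →* P F) := QuotientGroup.mk'_surjective _

/-- The matrix with given entries. -/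
def sl (a b c d : F) (h : a * d - b * c = 1) : SL(2, F) :=
  ⟨!![a, b; c, d], by rw [det_fin_two_of]; exact h⟩

lemma sl_ext {A B : SL(2, F)} (h1 : A 0 0 = B 0 0) (h2 : A 0 1 = B 0 1) (h3 : A 1 0 = B 1 0)
    (h4 : A 1 1 = B 1 1) : A = B := by
  apply Matrix.SpecialLinearGroup.ext
  intro i j
  fin_cases i <;> fin_cases j
  · exact h1
  · exact h2
  · exact h3
  · exact h4

lemma det_eq (A : SL(2, F)) : A 0 0 * A 1 1 - A 0 1 * A 1 0 = 1 := by
  have h := A.det_coe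
  rw [det_fin_two] at h
  exact h

@[simp] lemma sl00 (a b c d : F) (h) : (sl a b c d h) 0 0 = a := rfl
@[simp] lemma sl01 (a b c d : F) (h) : (sl a b c d h) 0 1 = b := rfl
@[simp] lemma sl10 (a b c d : F) (h) : (sl a b c d h) 1 0 = c := rfl
@[simp] lemma sl11 (a b c d : F) (h) : (sl a b c d h) 1 1 = d := rfl

lemma eq_sl (A : SL(2, F)) : A = sl (A 0 0) (A 0 1) (A 1 0) (A 1 1) (det_eq A) :=
  sl_ext rfl rfl rfl rfl

@[simp] lemma mul00 (A B : SL(2, F)) : (A * B) 0 0 = A 0 0 * B 0 0 + A 0 1 * B 1 0 := by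
  rw [coe_mul, Matrix.mul_apply, Fin.sum_univ_two]
@[simp] lemma mul01 (A B : SL(2, F)) : (A * B) 0 1 = A 0 0 * B 0 1 + A 0 1 * B 1 1 := by
  rw [coe_mul, Matrix.mul_apply, Fin.sum_univ_two]
@[simp] lemma mul10 (A B : SL(2, F)) : (A * B) 1 0 = A 1 0 * B 0 0 + A 1 1 * B 1 0 := by
  rw [coe_mul, Matrix.mul_apply, Fin.sum_univ_two]
@[simp] lemma mul11 (A B : SL(2, F)) : (A * B) 1 1 = A 1 0 * B 0 1 + A 1 1 * B 1 1 := by
  rw [coe_mul, Matrix.mul_apply, Fin.sum_univ_two]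
@[simp] lemma one00 : (1 : SL(2, F)) 0 0 = 1 := by simp
@[simp] lemma one01 : (1 : SL(2, F)) 0 1 = 0 := by simp
@[simp] lemma one10 : (1 : SL(2, F)) 1 0 = 0 := by simp
@[simp] lemma one11 : (1 : SL(2, F)) 1 1 = 1 := by simp
@[simp] lemma neg00 (A : SL(2, F)) : (-A) 0 0 = -(A 0 0) := by rw [coe_neg]; rfl
@[simp] lemma neg01 (A : SL(2, F)) : (-A) 0 1 = -(A 0 1) := by rw [coe_neg]; rfl
@[simp] lemma neg10 (A : SL(2, F)) : (-A) 1 0 = -(A 1 0) := by rw [coe_neg]; rfl
@[simp] lemma neg11 (A : SL(2, F)) : (-A) 1 1 = -(A 1 1) := by rw [coe_neg]; rfl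
@[simp] lemma inv00 (A : SL(2, F)) : (A⁻¹) 0 0 = A 1 1 := by
  rw [coe_inv, adjugate_fin_two]; rfl
@[simp] lemma inv01 (A : SL(2, F)) : (A⁻¹) 0 1 = -(A 0 1) := by
  rw [coe_inv, adjugate_fin_two]; rfl
@[simp] lemma inv10 (A : SL(2, F)) : (A⁻¹) 1 0 = -(A 1 0) := by
  rw [coe_inv, adjugate_fin_two]; rfl
@[simp] lemma inv11 (A : SL(2, F)) : (A⁻¹) 1 1 = A 0 0 := by
  rw [coe_inv, adjugate_fin_two]; rfl

/-- Upper unipotent matrices. -/
def u (a : F) : SL(2, F) := sl 1 a 0 1 (by ring)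

/-- Lower unipotent matrices. -/
def v (c : F) : SL(2, F) := sl 1 0 c 1 (by ring)

/-- Antidiagonal matrices. -/
def n (c : F) (hc : c ≠ 0) : SL(2, F) := sl 0 c (-c⁻¹) 0 (by field_simp; ring)

@[simp] lemma u00 (a : F) : (u a) 0 0 = 1 := rfl
@[simp] lemma u01 (a : F) : (u a) 0 1 = a := rfl
@[simp] lemma u10 (a : F) : (u a) 1 0 = 0 := rfl
@[simp] lemma u11 (a : F) : (u a) 1 1 = 1 := rfl
@[simp] lemma v00 (a : F) : (v a) 0 0 = 1 := rfl
@[simp] lemma v01 (a : F) : (v a) 0 1 = 0 := rfl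
@[simp] lemma v10 (a : F) : (v a) 1 0 = a := rfl
@[simp] lemma v11 (a : F) : (v a) 1 1 = 1 := rfl

lemma u_add (a b : F) : u (a + b) = u a * u b := by
  apply sl_ext <;> simp [add_comm]

lemma v_add (a b : F) : v (a + b) = v a * v b := by
  apply sl_ext <;> simp

lemma u_zero : u (0 : F) = 1 := by apply sl_ext <;> simp
lemma v_zero : v (0 : F) = 1 := by apply sl_ext <;> simp

lemma mk_eq {A B : SL(2, F)} : mk A = mk B ↔ A = B ∨ A = -B := by
  have h1 : mk A = mk B ↔ A⁻¹ * B ∈ Subgroup.center SL(2, F) := QuotientGroup.eq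
  rw [h1, mem_center_iff]
  constructor
  · rintro ⟨r, hr, h⟩
    rw [Fintype.card_fin] at hr
    have h2 : ∀ i j, (scalar (Fin 2) r) i j = (A⁻¹ * B) i j := fun i j => by rw [h]
    have e00 := h2 0 0
    have e01 := h2 0 1
    have e10 := h2 1 0
    have e11 := h2 1 1
    simp only [scalar_apply, diagonal_apply_eq, ne_eq, Fin.isValue, zero_ne_one, not_false_eq_true,
      diagonal_apply_ne, one_ne_zero] at e00 e01 e10 e11
    have hB : B = A * (A⁻¹ * B) := by group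
    have hr' : r = 1 ∨ r = -1 := by
      have h4 : (r - 1) * (r + 1) = 0 := by linear_combination hr
      rcases mul_eq_zero.1 h4 with h5 | h5
      · exact Or.inl (sub_eq_zero.1 h5)
      · exact Or.inr (eq_neg_of_add_eq_zero_left h5)
    rcases hr' with h3 | h3
    · left
      rw [hB]
      apply sl_ext
      · rw [mul00, ← e00, ← e10, h3]; ring
      · rw [mul01, ← e01, ← e11, h3]; ring
      · rw [mul10, ← e00, ← e10, h3]; ring
      · rw [mul11, ← e01, ← e11, h3]; ring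
    · right
      rw [hB]
      apply sl_ext
      · rw [neg00, mul00, ← e00, ← e10, h3]; ring
      · rw [neg01, mul01, ← e01, ← e11, h3]; ring
      · rw [neg10, mul10, ← e00, ← e10, h3]; ring
      · rw [neg11, mul11, ← e01, ← e11, h3]; ring
  · rintro (rfl | rfl)
    · exact ⟨1, by simp, by simp⟩
    · refine ⟨-1, by simp, ?_⟩
      ext i j
      have h3 : ((-B)⁻¹ * B : SL(2, F)) = -1 := by
        rw [inv_mul_eq_iff_eq_mul]
        simp
      rw [h3]
      fin_cases i <;> fin_cases j <;> simp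

end Pool.Agent.BSpi.PSL
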