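import Pool.Agent.BSpi.PSL.Rigid
import Pool.Agent.BSpi.Main

set_option autoImplicit false
set_option linter.unusedSimpArgs false

open Matrix Matrix.SpecialLinearGroup
open scoped MatrixGroups

namespace Pool.Agent.BSpi.PSL

variable {F : Type} [Field F]

/-- Matrices of trace two have order dividing the characteristic. -/
lemma unip_pow (p : ℕ) [hp : Fact p.Prime] [CharP F p] {x : SL(2, F)} (hx : x 0 0 + x 1 1 = 2) :
    x ^ p = 1 := by
  apply coe_inj
  have hd := det_eq x
  have h11 : x 1 1 = 2 - x 0 0 := by linear_combination hx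
  rw [h11] at hd
  have hN : (x.1 - 1) * (x.1 - 1) = 0 := by
    ext i j
    rw [Matrix.mul_apply, Fin.sum_univ_two]
    fin_cases i <;> fin_cases j
    · change (x 0 0 - 1) * (x 0 0 - 1) + (x 0 1 - 0) * (x 1 0 - 0) = 0
      linear_combination -hd
    · change (x 0 0 - 1) * (x 0 1 - 0) + (x 0 1 - 0) * (x 1 1 - 1) = 0
      rw [h11]
      ring
    · change (x 1 0 - 0) * (x 0 0 - 1) + (x 1 1 - 1) * (x 1 0 - 0) = 0
      rw [h11]
      ring
    · change (x 1 0 - 0) * (x 0 1 - 0) + (x 1 1 - 1) * (x 1 1 - 1) = 0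
      rw [h11]
      linear_combination -hd
  have h1 : x.1 = (x.1 - 1) + 1 := by rw [sub_add_cancel]
  have h2 : (x.1 - 1) ^ p = 0 := by
    have h3 : p = 2 + (p - 2) := by have := hp.out.two_le; omega
    rw [h3, pow_add, pow_two, hN, zero_mul]
  rw [coe_pow, h1, add_pow_char_of_commute p (Commute.one_right _), h2, one_pow, zero_add]
  rfl

/-- `r`-subgroups of `SL(2, F)` are cyclic for odd primes `r` different from the characteristic. -/
lemma cyclic_sl [Finite F] (p : ℕ) [hp : Fact p.Prime] [CharP F p] {r : ℕ} (hr : r.Prime)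
    (hr2 : r ≠ 2) (hrp : r ≠ p) (R : Subgroup SL(2, F)) (hR : IsPGroup r R) : IsCyclic R := by
  have := Fact.mk hr
  have hcop : ∀ x ∈ R, ∀ n : ℕ, n.Prime → n ≠ r → x ^ n = 1 → x = 1 := by
    intro x hx n hn hnr hxn
    obtain ⟨k, hk⟩ := (IsPGroup.iff_orderOf.1 hR) ⟨x, hx⟩
    rw [← Subgroup.orderOf_coe] at hk
    have h1 : orderOf x ∣ n := orderOf_dvd_of_pow_eq_one hxn
    have h2 : orderOf x = r ^ k := hk
    rcases (Nat.dvd_prime hn).1 h1 with h3 | h3
    · exact orderOf_eq_one_iff.1 h3
    · exfalso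
      rw [h2] at h3
      have h4 : k ≠ 0 := by
        rintro rfl
        rw [pow_zero] at h3
        exact hn.one_lt.ne h3
      have h5 : r ∣ n := by rw [← h3]; exact dvd_pow_self r h4
      exact hnr ((Nat.prime_dvd_prime_iff_eq hr hn).1 h5).symm
  rcases subsingleton_or_nontrivial R with hs | hnt
  · infer_instance
  obtain ⟨⟨z, hzc⟩, hz1⟩ := (nontrivial_iff_exists_ne 1).1 hR.center_nontrivial
  have hzc' := Subgroup.mem_center_iff.1 hzc
  have hz1' : (z : SL(2, F)) ≠ 1 := by
    intro h
    apply hz1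
    apply Subtype.ext
    apply Subtype.ext
    exact h
  let K := AlgebraicClosure F
  let ι : F →+* K := algebraMap F K
  have hι : Function.Injective ι := ι.injective
  let Z : Matrix (Fin 2) (Fin 2) K := (z : SL(2, F)).1.map ι
  obtain ⟨μ, hμ⟩ := Module.End.exists_eigenvalue (Matrix.toLin' Z)
  obtain ⟨w, hw⟩ := hμ.exists_hasEigenvector
  have hw0 : w ≠ 0 := hw.2
  have hwμ : Z.mulVec w = μ • w := by
    have := hw.apply_eq_smul
    rwa [Matrix.toLin'_apply] at this
  have e0 : ι ((z : SL(2, F)) 0 0) * w 0 + ι ((z : SL(2, F)) 0 1) * w 1 = μ * w 0 := by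
    have := congrFun hwμ 0
    rw [Matrix.mulVec, dotProduct, Fin.sum_univ_two] at this
    exact this
  have e1 : ι ((z : SL(2, F)) 1 0) * w 0 + ι ((z : SL(2, F)) 1 1) * w 1 = μ * w 1 := by
    have := congrFun hwμ 1
    rw [Matrix.mulVec, dotProduct, Fin.sum_univ_two] at this
    exact this
  have hww : w 0 ≠ 0 ∨ w 1 ≠ 0 := by
    by_contra hcon
    push Not at hcon
    apply hw0
    funext i
    fin_cases i
    · exact hcon.1
    · exact hcon.2
  -- the action on the eigenvector
  have key : ∀ x : R, ∃ c : K,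
      ι ((x : SL(2, F)) 0 0) * w 0 + ι ((x : SL(2, F)) 0 1) * w 1 = c * w 0 ∧
      ι ((x : SL(2, F)) 1 0) * w 0 + ι ((x : SL(2, F)) 1 1) * w 1 = c * w 1 := by
    intro x
    set W0 := ι ((x : SL(2, F)) 0 0) * w 0 + ι ((x : SL(2, F)) 0 1) * w 1 with hW0
    set W1 := ι ((x : SL(2, F)) 1 0) * w 0 + ι ((x : SL(2, F)) 1 1) * w 1 with hW1
    by_cases hdet : w 0 * W1 - w 1 * W0 = 0
    · rcases hww with h | h
      · refine ⟨W0 / w 0, (div_mul_cancel₀ W0 h).symm, ?_⟩
        rw [div_mul_eq_mul_div, eq_div_iff h]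
        linear_combination hdet
      · refine ⟨W1 / w 1, ?_, (div_mul_cancel₀ W1 h).symm⟩
        rw [div_mul_eq_mul_div, eq_div_iff h]
        linear_combination -hdet
    · exfalso
      have hc : (x : SL(2, F)) * (z : SL(2, F)) = (z : SL(2, F)) * (x : SL(2, F)) :=
        congrArg Subtype.val (hzc' x)
      have hc' : ∀ i j, ι ((x : SL(2, F)) i 0) * ι ((z : SL(2, F)) 0 j) +
          ι ((x : SL(2, F)) i 1) * ι ((z : SL(2, F)) 1 j) =
          ι ((z : SL(2, F)) i 0) * ι ((x : SL(2, F)) 0 j) +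
          ι ((z : SL(2, F)) i 1) * ι ((x : SL(2, F)) 1 j) := by
        intro i j
        have h1 : ((x : SL(2, F)) * (z : SL(2, F))) i j = ((z : SL(2, F)) * (x : SL(2, F))) i j := by
          rw [hc]
        rw [coe_mul, coe_mul, Matrix.mul_apply, Matrix.mul_apply, Fin.sum_univ_two,
          Fin.sum_univ_two] at h1
        have h2 := congrArg ι h1
        rw [map_add, map_add, map_mul, map_mul, map_mul, map_mul] at h2
        exact h2
      have f0 : ι ((z : SL(2, F)) 0 0) * W0 + ι ((z : SL(2, F)) 0 1) * W1 = μ * W0 := by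
        rw [hW0, hW1]
        linear_combination -(w 0) * hc' 0 0 - (w 1) * hc' 0 1 +
          ι ((x : SL(2, F)) 0 0) * e0 + ι ((x : SL(2, F)) 0 1) * e1
      have f1 : ι ((z : SL(2, F)) 1 0) * W0 + ι ((z : SL(2, F)) 1 1) * W1 = μ * W1 := by
        rw [hW0, hW1]
        linear_combination -(w 0) * hc' 1 0 - (w 1) * hc' 1 1 +
          ι ((x : SL(2, F)) 1 0) * e0 + ι ((x : SL(2, F)) 1 1) * e1
      have g00 : ι ((z : SL(2, F)) 0 0) = μ := by
        have h1 : (ι ((z : SL(2, F)) 0 0) - μ) * (w 0 * W1 - w 1 * W0) = 0 := by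
          linear_combination W1 * e0 - w 1 * f0
        rcases mul_eq_zero.1 h1 with h2 | h2
        · exact sub_eq_zero.1 h2
        · exact absurd h2 hdet
      have g01 : ι ((z : SL(2, F)) 0 1) = 0 := by
        have h1 : ι ((z : SL(2, F)) 0 1) * (w 0 * W1 - w 1 * W0) = 0 := by
          linear_combination -W0 * e0 + w 0 * f0
        rcases mul_eq_zero.1 h1 with h2 | h2
        · exact h2
        · exact absurd h2 hdet
      have g11 : ι ((z : SL(2, F)) 1 1) = μ := by
        have h1 : (ι ((z : SL(2, F)) 1 1) - μ) * (w 0 * W1 - w 1 * W0) = 0 := by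
          linear_combination -W0 * e1 + w 0 * f1
        rcases mul_eq_zero.1 h1 with h2 | h2
        · exact sub_eq_zero.1 h2
        · exact absurd h2 hdet
      have g10 : ι ((z : SL(2, F)) 1 0) = 0 := by
        have h1 : ι ((z : SL(2, F)) 1 0) * (w 0 * W1 - w 1 * W0) = 0 := by
          linear_combination W1 * e1 - w 1 * f1
        rcases mul_eq_zero.1 h1 with h2 | h2
        · exact h2
        · exact absurd h2 hdet
      have k01 : (z : SL(2, F)) 0 1 = 0 := hι (by rw [g01, map_zero])
      have k10 : (z : SL(2, F)) 1 0 = 0 := hι (by rw [g10, map_zero])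
      have k11 : (z : SL(2, F)) 1 1 = (z : SL(2, F)) 0 0 := hι (by rw [g11, g00])
      have kd := det_eq (z : SL(2, F))
      rw [k01, k11] at kd
      have hsq : (z : SL(2, F)) ^ 2 = 1 := by
        rw [pow_two]
        apply sl_ext
        · rw [mul00, k01, one00]
          linear_combination kd
        · rw [mul01, k01, one01]
          ring
        · rw [mul10, k10, one10]
          ring
        · rw [mul11, k10, k11, one11]
          linear_combination kd
      exact hz1' (hcop _ z.2 2 Nat.prime_two hr2.symm hsq)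
  choose c hc0 hc1 using key
  have huniq : ∀ a b : K, a * w 0 = b * w 0 → a * w 1 = b * w 1 → a = b := by
    intro a b h0 h1
    rcases hww with h | h
    · exact mul_right_cancel₀ h h0
    · exact mul_right_cancel₀ h h1
  have hcone : c 1 = 1 := by
    apply huniq
    · rw [← hc0]
      simp
    · rw [← hc1]
      simp
  have hcmul : ∀ x y, c (x * y) = c x * c y := by
    intro x y
    have a0 := hc0 x
    have a1 := hc1 x
    have b0 := hc0 y
    have b1 := hc1 y
    apply huniq
    · rw [← hc0, Subgroup.coe_mul, mul00, mul01]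
      simp only [map_add, map_mul]
      linear_combination ι ((x : SL(2, F)) 0 0) * b0 + ι ((x : SL(2, F)) 0 1) * b1 + c y * a0
    · rw [← hc1, Subgroup.coe_mul, mul10, mul11]
      simp only [map_add, map_mul]
      linear_combination ι ((x : SL(2, F)) 1 0) * b0 + ι ((x : SL(2, F)) 1 1) * b1 + c y * a1
  let χ : R →* K :=
    { toFun := c
      map_one' := hcone
      map_mul' := hcmul }
  have hker : ∀ x, c x = 1 → x = 1 := by
    intro x hx
    have a0 := hc0 x
    have a1 := hc1 x
    rw [hx] at a0 a1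
    apply Subtype.ext
    have ht : (x : SL(2, F)) 0 0 + (x : SL(2, F)) 1 1 = 2 := by
      apply hι
      rw [map_add, map_ofNat]
      have hd := congrArg ι (det_eq (x : SL(2, F)))
      rw [map_sub, map_mul, map_mul, map_one] at hd
      rcases hww with h | h
      · apply mul_right_cancel₀ h
        linear_combination -(ι ((x : SL(2, F)) 1 1) - 1) * a0 + ι ((x : SL(2, F)) 0 1) * a1 +
          (w 0) * hd
      · apply mul_right_cancel₀ h
        linear_combination -(ι ((x : SL(2, F)) 0 0) - 1) * a1 + ι ((x : SL(2, F)) 1 0) * a0 +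
          (w 1) * hd
    exact hcop _ x.2 p hp.out hrp.symm (unip_pow p ht)
  have hinj : Function.Injective χ := by
    intro x y hxy
    have h1 : c (x * y⁻¹) * c y = c y := by
      rw [← hcmul, inv_mul_cancel_right]
      exact hxy
    have h2 : c y * c y⁻¹ = 1 := by rw [← hcmul, mul_inv_cancel, hcone]
    have h3 : c y ≠ 0 := left_ne_zero_of_mul_eq_one h2
    have h4 : c (x * y⁻¹) = 1 := mul_right_cancel₀ h3 (by rw [h1, one_mul])
    exact mul_inv_eq_one.1 (hker _ h4)
  exact isCyclic_of_injective_ringHom χ hinj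

lemma cyclic_psl [Finite F] (p : ℕ) [hp : Fact p.Prime] [CharP F p] {r : ℕ} (hr : r.Prime)
    (hr2 : r ≠ 2) (hrp : r ≠ p) : CyclicAt r (P F) := by
  intro Q hQ
  obtain ⟨R, hR, rfl⟩ := sylow_onto hr mk mk_surjective Q hQ
  have := cyclic_sl p hr hr2 hrp R hR
  refine isCyclic_of_surjective (mk.subgroupMap R) ?_
  exact mk.subgroupMap_surjective R

/-- The first rigidity property away from the characteristic. -/
lemma rigid_inner [Finite F] (p : ℕ) [hp : Fact p.Prime] [CharP F p] {r : ℕ} (hr : r.Prime)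
    (hr2 : r ≠ 2) (hrp : r ≠ p) (y : P F) (hy : orderOf y = r) (β : MulAut (P F)) :
    ∃ (a : P F) (j : ℕ), β y = (a * y * a⁻¹) ^ j := by
  have hc : CyclicAt r (⊤ : Subgroup (P F)) :=
    (cyclic_psl p hr hr2 hrp).sub (⊤ : Subgroup (P F)).subtype (Subgroup.subtype_injective _)
  obtain ⟨n, -, hn⟩ := cyclic_conj (⊤ : Subgroup (P F)) hr hc (z := y) (w := β y) trivial trivial hy
    (by rw [MulEquiv.orderOf_eq, hy])
  rw [← mem_powers_iff_mem_zpowers] at hn
  obtain ⟨j, hj⟩ := hn
  exact ⟨n, j, hj.symm⟩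

end Pool.Agent.BSpi.PSL
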