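import Pool.Agent.BSpi.PSL.Cyc

set_option autoImplicit false
set_option linter.unusedSimpArgs false

open Matrix Matrix.SpecialLinearGroup
open scoped MatrixGroups

namespace Pool.Agent.BSpi.PSL

variable {F : Type} [Field F] {π : Set ℕ}

lemma nonsq_mul [Finite F] {x y : F} (hx : ¬ IsSquare x) (hy : ¬ IsSquare y) :
    IsSquare (x * y) := by
  have := Fintype.ofFinite F
  have h2 : ringChar F ≠ 2 := fun h => hx (FiniteField.isSquare_of_char_two h x)
  have hx0 : x ≠ 0 := by rintro rfl; exact hx ⟨0, by ring⟩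
  have hy0 : y ≠ 0 := by rintro rfl; exact hy ⟨0, by ring⟩
  rw [FiniteField.isSquare_iff h2 hx0] at hx
  rw [FiniteField.isSquare_iff h2 hy0] at hy
  rw [FiniteField.isSquare_iff h2 (mul_ne_zero hx0 hy0), mul_pow]
  rcases FiniteField.pow_dichotomy h2 hx0 with h | h
  · exact absurd h hx
  · rcases FiniteField.pow_dichotomy h2 hy0 with h' | h'
    · exact absurd h' hy
    · rw [h, h']
      ring

/-- Powers of matrices of determinant one depend on the trace only. -/
lemma pow_trace (t : F) (k : ℕ) : ∃ a b : F, ∀ Z : SL(2, F), Z 0 0 + Z 1 1 = t →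
    ∀ i j, (Z ^ k) i j = a * Z i j + b * (1 : Matrix (Fin 2) (Fin 2) F) i j := by
  induction k with
  | zero =>
    refine ⟨0, 1, fun Z _ i j => ?_⟩
    rw [pow_zero, zero_mul, one_mul, zero_add]
    rfl
  | succ k ih =>
    obtain ⟨a, b, h⟩ := ih
    refine ⟨a * t + b, -a, fun Z hZ i j => ?_⟩
    have hd := det_eq Z
    have h11 : Z 1 1 = t - Z 0 0 := by linear_combination hZ
    have hk := h Z hZ
    have k00 := hk 0 0
    have k01 := hk 0 1
    have k10 := hk 1 0
    have k11 := hk 1 1
    rw [h11] at hd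
    simp only [Matrix.one_apply_eq, Matrix.one_apply_ne, ne_eq, zero_ne_one, one_ne_zero,
      not_false_eq_true, h11] at k00 k01 k10 k11
    rw [pow_succ]
    fin_cases i <;> fin_cases j
    · change (Z ^ k * Z) 0 0 = (a * t + b) * Z 0 0 + -a * 1
      rw [mul00, k00, k01]
      linear_combination -a * hd
    · change (Z ^ k * Z) 0 1 = (a * t + b) * Z 0 1 + -a * 0
      rw [mul01, k00, k01, h11]
      ring
    · change (Z ^ k * Z) 1 0 = (a * t + b) * Z 1 0 + -a * 0
      rw [mul10, k10, k11]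
      ring
    · change (Z ^ k * Z) 1 1 = (a * t + b) * Z 1 1 + -a * 1
      rw [mul11, k10, k11, h11]
      linear_combination -a * hd

lemma mk_ne_one {X : SL(2, F)} (h : X 0 1 ≠ 0) : mk X ≠ 1 := by
  intro h1
  rw [← map_one mk] at h1
  rcases mk_eq.1 h1 with h2 | h2
  · apply h
    rw [h2, one01]
  · apply h
    rw [h2, neg01, one01, neg_zero]

/-- Matrices with the same trace as a nonscalar matrix of order dividing `k` have order dividing
`k`. -/
lemma pow_of_trace {X W : SL(2, F)} {k : ℕ} (hX : mk X ≠ 1) (hXk : X ^ k = 1)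
    (ht : X 0 0 + X 1 1 = W 0 0 + W 1 1) : W ^ k = 1 := by
  obtain ⟨a, b, h⟩ := pow_trace (X 0 0 + X 1 1) k
  have hx := h X rfl
  rw [hXk] at hx
  have k00 := hx 0 0
  have k01 := hx 0 1
  have k10 := hx 1 0
  have k11 := hx 1 1
  simp only [Matrix.one_apply_eq, Matrix.one_apply_ne, ne_eq, zero_ne_one, one_ne_zero,
      not_false_eq_true, one00, one01, one10, one11, mul_zero, mul_one, add_zero]
      at k00 k01 k10 k11
  have ha : a = 0 := by
    by_contra ha
    apply hX
    have e01 : X 0 1 = 0 := (mul_eq_zero.1 k01.symm).resolve_left ha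
    have e10 : X 1 0 = 0 := (mul_eq_zero.1 k10.symm).resolve_left ha
    have e11 : X 1 1 = X 0 0 := by
      apply mul_left_cancel₀ ha
      linear_combination k00 - k11
    have hd := det_eq X
    rw [e01, e11] at hd
    have h4 : (X 0 0 - 1) * (X 0 0 + 1) = 0 := by linear_combination hd
    rw [← map_one mk, mk_eq]
    rcases mul_eq_zero.1 h4 with h5 | h5
    · left
      have h6 : X 0 0 = 1 := by linear_combination h5
      apply sl_ext
      · rw [one00, h6]
      · rw [one01, e01]
      · rw [one10, e10]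
      · rw [one11, e11, h6]
    · right
      have h6 : X 0 0 = -1 := by linear_combination h5
      apply sl_ext
      · rw [neg00, one00, h6]
      · rw [neg01, one01, e01, neg_zero]
      · rw [neg10, one10, e10, neg_zero]
      · rw [neg11, one11, e11, h6]
  have hb : b = 1 := by
    rw [ha] at k00
    linear_combination -k00
  have hw := h W ht.symm
  rw [ha, hb] at hw
  apply coe_inj
  ext i j
  have h7 := hw i j
  rw [zero_mul, zero_add, one_mul] at h7
  rw [h7]
  rfl

lemma closure_conj {G : Type} [Group G] {y s : G}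
    (h : ∀ t : G, IsPi π (Subgroup.closure {y, t * y * t⁻¹})) (t : G) :
    IsPi π (Subgroup.closure {s * y * s⁻¹, t * (s * y * s⁻¹) * t⁻¹}) := by
  have h1 := (h (s⁻¹ * t * s)).map (MulAut.conj s).toMonoidHom
  rw [map_pair] at h1
  have h2 : (MulAut.conj s).toMonoidHom y = s * y * s⁻¹ := rfl
  have h3 : (MulAut.conj s).toMonoidHom (s⁻¹ * t * s * y * (s⁻¹ * t * s)⁻¹) =
      t * (s * y * s⁻¹) * t⁻¹ := by
    change s * (s⁻¹ * t * s * y * (s⁻¹ * t * s)⁻¹) * s⁻¹ = _
    group
  rw [h2, h3] at h1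
  exact h1

/-- The product of two unipotent matrices. -/
lemma prod_mem {a i m : F} (ha : a ≠ 0) (hi : i * i = -1) (hm : m ≠ 0)
    (h : ∀ t : P F, IsPi π (Subgroup.closure {mk (u a), t * mk (u a) * t⁻¹})) (q : ℕ)
    (hq : q.Prime) (hqd : q ∣ orderOf (mk (u a * v (m * m / a)))) : q ∈ π := by
  have hi0 : i ≠ 0 := by
    rintro rfl
    rw [zero_mul] at hi
    have : (1 : F) = 0 := by linear_combination hi
    exact one_ne_zero this
  have hd : a / (i * m) ≠ 0 := div_ne_zero ha (mul_ne_zero hi0 hm)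
  refine (h (mk (n _ hd))).orderOf (x := mk (u a * v (m * m / a))) ?_ q hq hqd
  have h1 : mk (v (m * m / a)) = mk (n _ hd) * mk (u a) * (mk (n _ hd))⁻¹ := by
    rw [← map_inv, ← map_mul, ← map_mul, n_conj]
    congr 2
    field_simp
    linear_combination hi
  rw [map_mul, h1]
  exact mul_mem (left_mem _ _) (right_mem _ _)

lemma prod_trace (a m : F) (ha : a ≠ 0) :
    (u a * v (m * m / a)) 0 0 + (u a * v (m * m / a)) 1 1 = 2 + m * m := by
  simp only [mul00, mul01, mul10, mul11, u00, u01, u10, u11, v00, v01, v10, v11]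
  field_simp
  ring

lemma prod_ne_one (a m : F) (ha : a ≠ 0) : mk (u a * v (m * m / a)) ≠ 1 := by
  apply mk_ne_one
  simp only [mul00, mul01, mul10, mul11, u00, u01, u10, u11, v00, v01, v10, v11]
  simpa using ha

/-- If all elements of the prime field are squares then bad elements of order `p` exist only if
`PSL(2, F)` is a `π`-group. -/
lemma top_pi [Finite F] (p : ℕ) [hp : Fact p.Prime] [CharP F p] (hp2 : p ≠ 2)
    (hsq : ∀ k : ℕ, IsSquare (k : F)) {a : F} (ha : a ≠ 0)
    (h : ∀ t : P F, IsPi π (Subgroup.closure {mk (u a), t * mk (u a) * t⁻¹})) :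
    IsPi π (⊤ : Subgroup (P F)) := by
  have hneg : ∀ k : ℕ, k ≤ p → IsSquare (-(k : F)) := by
    intro k hk
    have h1 := hsq (p - k)
    rw [Nat.cast_sub hk, CharP.cast_eq_zero, zero_sub] at h1
    exact h1
  obtain ⟨i, hi⟩ := hneg 1 hp.out.one_lt.le
  obtain ⟨e, he⟩ := hneg 2 hp.out.two_le
  have hi' : i * i = -1 := by rw [← hi]; push_cast; ring
  have he' : e * e = -2 := by rw [← he]; push_cast; ring
  have h2ne : (2 : F) ≠ 0 := by
    intro h2
    have h3 : ((2 : ℕ) : F) = 0 := by exact_mod_cast h2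
    rw [CharP.cast_eq_zero_iff F p] at h3
    exact hp2 ((Nat.prime_dvd_prime_iff_eq hp.out Nat.prime_two).1 h3)
  have he0 : e ≠ 0 := by
    rintro rfl
    rw [zero_mul] at he'
    exact h2ne (by linear_combination he')
  refine isPi_of_orders fun x _ ℓ hℓ hx => ?_
  have hx1 : x ≠ 1 := by
    rintro rfl
    rw [orderOf_one] at hx
    exact hℓ.one_lt.ne hx
  have hxℓ : x ^ ℓ = 1 := by rw [← hx]; exact pow_orderOf_eq_one x
  by_cases hℓp : ℓ = p
  · have h3 : orderOf (mk (u a)) = p := by
      refine orderOf_eq_prime ?_ ?_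
      · rw [← map_pow, unip_pow p (by rw [u00, u11]; norm_num), map_one]
      · exact mk_ne_one (by rw [u01]; exact ha)
    exact (h 1).orderOf (left_mem _ _) ℓ hℓ (by rw [h3, hℓp])
  have := Fact.mk hℓ
  by_cases hℓ2 : ℓ = 2
  · -- the trace is zero
    have ht : (u a * v (e * e / a)) 0 0 + (u a * v (e * e / a)) 1 1 = 0 := by
      rw [prod_trace a e ha, he']
      ring
    refine prod_mem ha hi' he0 h ℓ hℓ ?_
    have h4 : mk (u a * v (e * e / a)) ^ ℓ = 1 := by
      rw [hℓ2, ← map_pow, ← map_one mk, mk_eq]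
      right
      generalize u a * v (e * e / a) = z at ht
      have hd := det_eq z
      have h11 : z 1 1 = - z 0 0 := by linear_combination ht
      rw [h11] at hd
      rw [pow_two]
      apply sl_ext
      · rw [mul00, neg00, one00]
        linear_combination -hd
      · rw [mul01, neg01, one01, h11]
        ring
      · rw [mul10, neg10, one10, h11]
        ring
      · rw [mul11, neg11, one11, h11]
        linear_combination -hd
    rw [orderOf_eq_prime h4 (prod_ne_one a e ha)]
  · obtain ⟨m, hm⟩ := hℓ.odd_of_ne_two hℓ2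
    obtain ⟨X, hXx, hXℓ⟩ : ∃ X : SL(2, F), mk X = x ∧ X ^ ℓ = 1 := by
      obtain ⟨X, rfl⟩ := mk_surjective x
      rw [← map_pow, ← map_one mk, mk_eq] at hxℓ
      rcases hxℓ with h5 | h5
      · exact ⟨X, rfl, h5⟩
      · refine ⟨-X, (mk_eq.2 (Or.inr rfl)), ?_⟩
        rw [Odd.neg_pow ⟨m, hm⟩, h5, neg_neg]
    subst hXx
    set Y := X ^ (m + 1) with hY
    have hYY : Y * Y = X := by
      rw [hY, ← pow_add]
      have h6 : m + 1 + (m + 1) = ℓ + 1 := by omega
      rw [h6, pow_succ, hXℓ, one_mul]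
    have htr : X 0 0 + X 1 1 = (Y 0 0 + Y 1 1) * (Y 0 0 + Y 1 1) - 2 := by
      have hd := det_eq Y
      rw [← hYY, mul00, mul11]
      linear_combination -2 * hd
    have hY0 : Y 0 0 + Y 1 1 ≠ 0 := by
      intro h0
      rw [h0] at htr
      have h7 : (-X) ^ p = 1 := unip_pow p (by
        rw [neg00, neg11]
        linear_combination -htr)
      have h8 : mk X ^ p = 1 := by
        have h9 : mk X = mk (-X) := mk_eq.2 (Or.inr (neg_neg X).symm)
        rw [h9, ← map_pow, h7, map_one]
      have h10 : ℓ ∣ p := by rw [← hx]; exact orderOf_dvd_of_pow_eq_one h8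
      exact hℓp ((Nat.prime_dvd_prime_iff_eq hℓ hp.out).1 h10)
    set s := i * (Y 0 0 + Y 1 1) with hs
    have hi0 : i ≠ 0 := by
      rintro rfl
      rw [zero_mul] at hi'
      have : (1 : F) = 0 := by linear_combination hi'
      exact one_ne_zero this
    have hs0 : s ≠ 0 := mul_ne_zero hi0 hY0
    have ht := prod_trace a s ha
    have hss : s * s = -((Y 0 0 + Y 1 1) * (Y 0 0 + Y 1 1)) := by
      rw [hs]
      linear_combination ((Y 0 0 + Y 1 1) * (Y 0 0 + Y 1 1)) * hi'
    refine prod_mem ha hi' hs0 h ℓ hℓ ?_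
    have h11 : (-(u a * v (s * s / a))) ^ ℓ = 1 := by
      refine pow_of_trace hx1 hXℓ ?_
      rw [neg00, neg11, htr]
      linear_combination ht + hss
    have h12 : mk (u a * v (s * s / a)) ^ ℓ = 1 := by
      have h9 : mk (u a * v (s * s / a)) = mk (-(u a * v (s * s / a))) :=
        mk_eq.2 (Or.inr (neg_neg _).symm)
      rw [h9, ← map_pow, h11, map_one]
    rw [orderOf_eq_prime h12 (prod_ne_one a s ha)]

/-- Conjugacy of unipotent elements up to powers. -/
lemma unip_conj [Finite F] {k : ℕ} (hk : ¬ IsSquare (k : F)) {a b : F} (ha : a ≠ 0)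
    (hb : b ≠ 0) : ∃ (t : P F) (j : ℕ), mk (u b) = (t * mk (u a) * t⁻¹) ^ j := by
  have hpow : ∀ (c : F) (j : ℕ), u c ^ j = u (j * c) := by
    intro c j
    induction j with
    | zero => rw [pow_zero, Nat.cast_zero, zero_mul, u_zero]
    | succ j ih => rw [pow_succ, ih, ← u_add]; congr 1; push_cast; ring
  have hdiag : ∀ c : F, c ≠ 0 → ∃ t : P F, ∀ x : F, t * mk (u x) * t⁻¹ = mk (u (c * c * x)) := by
    intro c hc
    refine ⟨mk (sl c 0 0 c⁻¹ (by field_simp; ring)), fun x => ?_⟩
    rw [← map_inv, ← map_mul, ← map_mul]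
    congr 1
    apply sl_ext <;>
      simp only [mul00, mul01, mul10, mul11, u00, u01, u10, u11, inv00, inv01, inv10, inv11,
        sl00, sl01, sl10, sl11] <;> field_simp <;> ring
  by_cases h1 : IsSquare (b / a)
  · obtain ⟨c, hc⟩ := h1
    have hc0 : c ≠ 0 := by
      rintro rfl
      rw [zero_mul] at hc
      exact div_ne_zero hb ha hc
    obtain ⟨t, ht⟩ := hdiag c hc0
    refine ⟨t, 1, ?_⟩
    rw [ht, pow_one, ← hc]
    congr 2
    field_simp
  · have hk0 : (k : F) ≠ 0 := by
      intro h0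
      apply hk
      rw [h0]
      exact ⟨0, by ring⟩
    obtain ⟨c, hc⟩ := nonsq_mul h1 hk
    have hc0 : c ≠ 0 := by
      rintro rfl
      rw [zero_mul] at hc
      exact mul_ne_zero (div_ne_zero hb ha) hk0 hc
    obtain ⟨t, ht⟩ := hdiag (c / k) (div_ne_zero hc0 hk0)
    refine ⟨t, k, ?_⟩
    rw [ht, ← map_pow, hpow]
    congr 2
    have h2 : (c / k) * (c / k) = b / a / k := by
      rw [div_mul_div_comm, ← hc]
      field_simp
    rw [h2]
    field_simp

/-- Bad elements of order `p`. -/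
lemma good_defining [Finite F] (p : ℕ) [hp : Fact p.Prime] [CharP F p] (hp2 : p ≠ 2) (y : P F)
    (hy : orderOf y = p) (h : ∀ t : P F, IsPi π (Subgroup.closure {y, t * y * t⁻¹}))
    (β : MulAut (P F)) : IsPi π (Subgroup.closure {y, β y}) := by
  have hunip : ∀ w : P F, orderOf w = p → ∃ (s : P F) (a : F), a ≠ 0 ∧ s⁻¹ * w * s = mk (u a) := by
    intro w hw
    have hW : IsPGroup p (Subgroup.zpowers w) := IsPGroup.of_card (n := 1) (by
      rw [Nat.card_zpowers, hw, pow_one])
    obtain ⟨s, hs⟩ := pgroup_psl _ hW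
    obtain ⟨a, ha⟩ := hs w (Subgroup.mem_zpowers w)
    refine ⟨s, a, ?_, ha⟩
    rintro rfl
    rw [u_zero, map_one] at ha
    have h1 : w = 1 := by
      have : w = s * (s⁻¹ * w * s) * s⁻¹ := by group
      rw [this, ha]
      group
    rw [h1, orderOf_one] at hw
    exact hp.out.one_lt.ne hw
  obtain ⟨s, a, ha, hs⟩ := hunip y hy
  obtain ⟨s', b, hb, hs'⟩ := hunip (β y) (by rw [MulEquiv.orderOf_eq, hy])
  by_cases hk : ∃ k : ℕ, ¬ IsSquare (k : F)
  · obtain ⟨k, hk⟩ := hk
    obtain ⟨t, j, htj⟩ := unip_conj hk ha hb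
    refine (h (s' * t * s⁻¹)).mono (closure_pair_le (left_mem _ _) ?_)
    have h1 : β y = (s' * t * s⁻¹ * y * (s' * t * s⁻¹)⁻¹) ^ j := by
      have h2 : β y = s' * (s'⁻¹ * β y * s') * s'⁻¹ := by group
      rw [h2, hs', htj, ← hs, ← conj_pow]
      congr 1
      group
    rw [h1]
    exact Subgroup.pow_mem _ (right_mem _ _) j
  · push Not at hk
    have h1 := closure_conj (s := s⁻¹) h
    rw [_root_.inv_inv, hs] at h1
    exact (top_pi p hp2 hk ha h1).mono le_top

/-- The groups `PSL(2, F)` are good. -/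
theorem psl_goodAt [Finite F] (hinj : Function.Injective (MulAut.conj : P F →* MulAut (P F)))
    {r : ℕ} (hr : r.Prime) (hr2 : r ≠ 2) : GoodAt π r (P F) := by
  obtain ⟨p, hp, hcp⟩ : ∃ p : ℕ, Fact p.Prime ∧ CharP F p := by
    have hne : ringChar F ≠ 0 := by
      intro h0
      have : CharZero F := (CharP.ringChar_zero_iff_CharZero F).1 h0
      exact not_finite F
    have : NeZero (ringChar F) := ⟨hne⟩
    exact ⟨ringChar F, CharP.char_is_prime_of_pos F (ringChar F), inferInstance⟩
  by_cases hin : ∃ y : P F, orderOf (MulAut.conj y) = r ∧ BadAut π (P F) (MulAut.conj y)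
  · obtain ⟨y, hyr, hyb⟩ := hin
    have hy : orderOf y = r := by
      rw [← hyr]
      exact (orderOf_injective (MulAut.conj : P F →* MulAut (P F)) hinj y).symm
    have hb : ∀ t : P F, IsPi π (Subgroup.closure {y, t * y * t⁻¹}) := by
      intro t
      rw [← isPi_map_iff _ hinj, map_pair, map_mul, map_mul, map_inv]
      exact hyb t
    refine Or.inl ⟨y, ?_, fun β => ?_⟩
    · rintro rfl
      rw [orderOf_one] at hy
      exact hr.one_lt.ne hy
    · by_cases hrp : r = p
      · subst hrp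
        exact good_defining r hr2 y hy hb β
      · obtain ⟨a, j, haj⟩ := rigid_inner p hr hr2 hrp y hy β
        refine (hb a).mono (closure_pair_le (left_mem _ _) ?_)
        rw [haj]
        exact Subgroup.pow_mem _ (right_mem _ _) j
  · push Not at hin
    refine Or.inr fun f f' hf hf' hfb hfb' => ?_
    obtain ⟨a, j, haj⟩ := rigid_outer p hr hr2 f f' hf hf' (fun s hs => hin s (hs ▸ hf) (hs ▸ hfb))
      (fun s hs => hin s (hs ▸ hf') (hs ▸ hfb'))
    refine (hfb a).mono (closure_pair_le (left_mem _ _) ?_)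
    rw [haj]
    exact Subgroup.pow_mem _ (right_mem _ _) j

end Pool.Agent.BSpi.PSL
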