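import Pool.Agent.BSpi.PSL.H90

set_option autoImplicit false
set_option linter.unusedSimpArgs false

open Matrix Matrix.SpecialLinearGroup
open scoped MatrixGroups

namespace Pool.Agent.BSpi.PSL

variable {F : Type} [Field F]

/-- The invertible matrix with given entries. -/
noncomputable def gl (a b c d : F) (h : a * d - b * c ≠ 0) : GL (Fin 2) F :=
  Matrix.GeneralLinearGroup.mkOfDetNeZero !![a, b; c, d] (by rw [det_fin_two_of]; exact h)

@[simp] lemma gl00 (a b c d : F) (h) : (gl a b c d h) 0 0 = a := rfl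
@[simp] lemma gl01 (a b c d : F) (h) : (gl a b c d h) 0 1 = b := rfl
@[simp] lemma gl10 (a b c d : F) (h) : (gl a b c d h) 1 0 = c := rfl
@[simp] lemma gl11 (a b c d : F) (h) : (gl a b c d h) 1 1 = d := rfl

lemma cj_of {g : GL (Fin 2) F} {A B : SL(2, F)} (h : g.1 * A.1 = B.1 * g.1) : cj g A = B := by
  apply coe_inj
  have h1 : g.1 * (g⁻¹).1 = 1 := by rw [← Units.val_mul, mul_inv_cancel, Units.val_one]
  rw [cj_coe, h, mul_assoc, h1, mul_one]

lemma cj_smul {g h : GL (Fin 2) F} {c : F} (hg : g.1 = c • h.1) (A : SL(2, F)) :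
    cj g A = cj h A := by
  apply cj_of
  rw [hg, Matrix.smul_mul, Matrix.mul_smul, cj_eq (rfl : cj h A = cj h A)]

lemma exists_sl (g : GL (Fin 2) F) {ε : F} (h : g 0 0 * g 1 1 - g 0 1 * g 1 0 = ε * ε) :
    ∃ k : SL(2, F), ∀ A, cj g A = k * A * k⁻¹ := by
  have hε : ε ≠ 0 := by
    rintro rfl
    exact gl_ne_zero g (by rw [h, zero_mul])
  refine ⟨sl (g 0 0 / ε) (g 0 1 / ε) (g 1 0 / ε) (g 1 1 / ε) ?_, fun A => ?_⟩
  · field_simp
    linear_combination h
  · rw [← cj_toGL]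
    refine cj_smul (c := ε) ?_ A
    ext i j
    rw [Matrix.smul_apply, smul_eq_mul]
    fin_cases i <;> fin_cases j
    · change g 0 0 = ε * (g 0 0 / ε)
      field_simp
    · change g 0 1 = ε * (g 0 1 / ε)
      field_simp
    · change g 1 0 = ε * (g 1 0 / ε)
      field_simp
    · change g 1 1 = ε * (g 1 1 / ε)
      field_simp

/-- Every automorphism is given by a matrix and a field automorphism. -/
lemma exists_rep [Finite F] (p : ℕ) [Fact p.Prime] [CharP F p] (f : MulAut (P F)) :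
    ∃ g σ, Rep f g σ := by
  obtain ⟨s, hu, hv⟩ := normalize p f
  obtain ⟨S, rfl⟩ := mk_surjective s
  have hf0 : ∀ x, ((MulAut.conj (mk S))⁻¹ * f) x = (mk S)⁻¹ * f x * mk S := fun x => by
    rw [← map_inv, MulAut.mul_apply, MulAut.conj_apply, _root_.inv_inv]
  obtain ⟨α, σ, hα, h1, h2⟩ := semilinear ((MulAut.conj (mk S))⁻¹ * f)
    (fun a => by rw [hf0]; exact hu a) (fun a => by rw [hf0]; exact hv a)
  let d : GL (Fin 2) F := gl α 0 0 1 (by simpa using hα)
  have hd : ∀ A : SL(2, F), ((MulAut.conj (mk S))⁻¹ * f) (mk A) = mk (cj d (fr σ A)) := by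
    apply gen
    · intro a
      rw [h1, fr_u]
      congr 1
      symm
      apply cj_of
      ext i j
      rw [Matrix.mul_apply, Matrix.mul_apply, Fin.sum_univ_two, Fin.sum_univ_two]
      fin_cases i <;> fin_cases j
      · change α * 1 + 0 * 0 = 1 * α + (α * σ a) * 0
        ring
      · change α * σ a + 0 * 1 = 1 * 0 + (α * σ a) * 1
        ring
      · change 0 * 1 + 1 * 0 = 0 * α + 1 * 0
        ring
      · change 0 * σ a + 1 * 1 = 0 * 0 + 1 * 1
        ring
    · intro a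
      rw [h2, fr_v]
      congr 1
      symm
      apply cj_of
      ext i j
      rw [Matrix.mul_apply, Matrix.mul_apply, Fin.sum_univ_two, Fin.sum_univ_two]
      fin_cases i <;> fin_cases j
      · change α * 1 + 0 * σ a = 1 * α + 0 * 0
        ring
      · change α * 0 + 0 * 1 = 1 * 0 + 0 * 1
        ring
      · change 0 * 1 + 1 * σ a = (α⁻¹ * σ a) * α + 1 * 0
        field_simp
        ring
      · change 0 * 0 + 1 * 1 = (α⁻¹ * σ a) * 0 + 1 * 1
        ring
    · intro A B hA hB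
      rw [map_mul, map_mul, hA, hB, fr_hom, cj_hom, map_mul]
  refine ⟨(S : GL (Fin 2) F) * d, σ, fun A => ?_⟩
  have h3 := hd A
  rw [hf0] at h3
  rw [cj_mul, cj_toGL, map_mul, map_mul, map_inv, ← h3]
  group

lemma nrm_succ' (σ : F ≃+* F) (g : GL (Fin 2) F) (k : ℕ) :
    nrm σ g (k + 1) = g * frG σ (nrm σ g k) := by
  induction k with
  | zero =>
    change 1 * frG (σ ^ 0) g = g * frG σ 1
    rw [pow_zero, frG_one, frG_one_right, one_mul, mul_one]
  | succ k ih =>
    have h1 : nrm σ g (k + 1 + 1) = nrm σ g (k + 1) * frG (σ ^ (k + 1)) g := rfl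
    have h2 : nrm σ g (k + 1) = nrm σ g k * frG (σ ^ k) g := rfl
    rw [h1]
    nth_rw 1 [ih]
    rw [h2, frG_mulhom, mul_assoc, pow_succ', frG_mul]

lemma gl_mul_apply (g h : GL (Fin 2) F) (i j : Fin 2) :
    (g * h) i j = g i 0 * h 0 j + g i 1 * h 1 j := by
  change (g.1 * h.1) i j = _
  rw [Matrix.mul_apply, Fin.sum_univ_two]

/-- The scalar in the twisted power is fixed. -/
lemma fixed_of_scalar {g : GL (Fin 2) F} {σ : F ≃+* F} {r : ℕ} (h1 : σ ^ r = 1)
    (h01 : (nrm σ g r) 0 1 = 0) (h10 : (nrm σ g r) 1 0 = 0)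
    (h11 : (nrm σ g r) 1 1 = (nrm σ g r) 0 0) : σ ((nrm σ g r) 0 0) = (nrm σ g r) 0 0 := by
  have h2 : g * frG σ (nrm σ g r) = nrm σ g r * g := by
    rw [← nrm_succ']
    change nrm σ g r * frG (σ ^ r) g = _
    rw [h1, frG_one]
  have h3 : ∀ i j, (g * frG σ (nrm σ g r)) i j = (nrm σ g r * g) i j := fun i j => by rw [h2]
  have e1 := h3 0 0
  have e2 := h3 0 1
  simp only [gl_mul_apply, frG_apply, h01, h10, h11, map_zero, mul_zero, zero_mul, add_zero,
    zero_add] at e1 e2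
  by_cases h4 : g 0 0 = 0
  · have h5 : g 0 1 ≠ 0 := by
      intro h5
      apply gl_ne_zero g
      rw [h4, h5]
      ring
    have h6 : g 0 1 * (σ ((nrm σ g r) 0 0) - (nrm σ g r) 0 0) = 0 := by linear_combination e2
    rcases mul_eq_zero.1 h6 with h7 | h7
    · exact absurd h7 h5
    · exact sub_eq_zero.1 h7
  · have h6 : g 0 0 * (σ ((nrm σ g r) 0 0) - (nrm σ g r) 0 0) = 0 := by linear_combination e1
    rcases mul_eq_zero.1 h6 with h7 | h7
    · exact absurd h7 h4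
    · exact sub_eq_zero.1 h7

/-- The semilinear map attached to `g`, `σ` and a scalar. -/
def semi (g : GL (Fin 2) F) (σ : F ≃+* F) (ν : F) : (Fin 2 → F) →+ (Fin 2 → F) where
  toFun x := fun i => ν * (g i 0 * σ (x 0) + g i 1 * σ (x 1))
  map_zero' := by
    funext i
    simp
  map_add' x y := by
    funext i
    simp only [Pi.add_apply, map_add]
    ring

lemma semi_apply (g : GL (Fin 2) F) (σ : F ≃+* F) (ν : F) (x : Fin 2 → F) (i : Fin 2) :
    semi g σ ν x i = ν * (g i 0 * σ (x 0) + g i 1 * σ (x 1)) := rfl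

lemma semi_iterate (g : GL (Fin 2) F) (σ : F ≃+* F) (ν : F) (k : ℕ) :
    ∀ (x : Fin 2 → F) (i : Fin 2), (semi g σ ν)^[k] x i =
      nm σ ν k * ((nrm σ g k) i 0 * (σ ^ k) (x 0) + (nrm σ g k) i 1 * (σ ^ k) (x 1)) := by
  induction k with
  | zero =>
    intro x i
    rw [Function.iterate_zero, id_eq]
    fin_cases i
    · change x 0 = _ * ((1 : Matrix (Fin 2) (Fin 2) F) 0 0 * x 0 +
        (1 : Matrix (Fin 2) (Fin 2) F) 0 1 * x 1)
      simp [nm]
    · change x 1 = _ * ((1 : Matrix (Fin 2) (Fin 2) F) 1 0 * x 0 +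
        (1 : Matrix (Fin 2) (Fin 2) F) 1 1 * x 1)
      simp [nm]
  | succ k ih =>
    intro x i
    rw [Function.iterate_succ_apply, ih, semi_apply, semi_apply, nm_succ]
    have h1 : ∀ j, (nrm σ g (k + 1)) i j = (nrm σ g k) i 0 * (σ ^ k) (g 0 j) +
        (nrm σ g k) i 1 * (σ ^ k) (g 1 j) := by
      intro j
      change (nrm σ g k * frG (σ ^ k) g) i j = _
      rw [gl_mul_apply, frG_apply, frG_apply]
    rw [h1, h1, pow_succ]
    simp only [map_mul, map_add]
    change _ = nm σ ν k * (σ ^ k) ν * (_ * (σ ^ k) (σ (x 0)) + _ * (σ ^ k) (σ (x 1)))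
    ring

/-- Outer automorphisms of odd prime order are conjugate to field automorphisms. -/
lemma outer [Finite F] {f : MulAut (P F)} {g : GL (Fin 2) F} {σ : F ≃+* F} {r : ℕ} (hr : r.Prime)
    (hr2 : r ≠ 2) (hf : Rep f g σ) (hfr : f ^ r = 1) (hσ : σ ≠ 1) :
    ∃ s : P F, ∀ B : SL(2, F), ((MulAut.conj s)⁻¹ * f * MulAut.conj s) (mk B) = mk (fr σ B) := by
  have hk := hf.pow r
  rw [hfr] at hk
  obtain ⟨h1, h00, h01, h10, h11⟩ := hk.kernel
  have hfix := fixed_of_scalar h1 h01 h10 h11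
  obtain ⟨ν, hν, hνN⟩ := nm_surj hr h1 hσ (inv_ne_zero h00) (by rw [map_inv₀, hfix])
  have hTr : ∀ x, (semi g σ ν)^[r] x = x := by
    intro x
    funext i
    rw [semi_iterate, hνN, h1]
    fin_cases i
    · change ((nrm σ g r) 0 0)⁻¹ * ((nrm σ g r) 0 0 * x 0 + (nrm σ g r) 0 1 * x 1) = x 0
      rw [h01]
      field_simp
      ring
    · change ((nrm σ g r) 0 0)⁻¹ * ((nrm σ g r) 1 0 * x 0 + (nrm σ g r) 1 1 * x 1) = x 1
      rw [h10, h11]
      field_simp
      ring
  have hspan := fixed_span (V := Fin 2 → F) hr h1 hσ (semi g σ ν) (fun c x => by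
    funext i
    rw [Pi.smul_apply, semi_apply, semi_apply, Pi.smul_apply, Pi.smul_apply, smul_eq_mul,
      smul_eq_mul, smul_eq_mul, map_mul, map_mul]
    ring) hTr
  obtain ⟨w1, hw1, hw10⟩ : ∃ w, semi g σ ν w = w ∧ w 0 ≠ 0 := by
    by_contra hcon
    push Not at hcon
    have := hspan (LinearMap.proj 0) (fun x hx => hcon x hx) 1
    exact one_ne_zero this
  obtain ⟨w2, hw2, hdet⟩ : ∃ w, semi g σ ν w = w ∧ w1 0 * w 1 - w1 1 * w 0 ≠ 0 := by
    by_contra hcon
    push Not at hcon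
    have h3 := hspan ((w1 0) • (LinearMap.proj 1) - (w1 1) • (LinearMap.proj 0))
      (fun x hx => hcon x hx) (fun i => if i = 0 then 0 else 1)
    simp at h3
    exact hw10 h3
  set D := w1 0 * w2 1 - w1 1 * w2 0 with hD
  set δ := nm σ D r with hδ
  have hδ0 : δ ≠ 0 := nm_ne_zero σ hdet r
  have hδf : σ δ = δ := nm_fixed h1 hdet
  have hdh : δ * w1 0 * w2 1 - w2 0 * (δ * w1 1) = δ * D := by rw [hD]; ring
  let h : GL (Fin 2) F := gl (δ * w1 0) (w2 0) (δ * w1 1) (w2 1) (by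
    rw [hdh]; exact mul_ne_zero hδ0 hdet)
  obtain ⟨m, hm⟩ := hr.odd_of_ne_two hr2
  obtain ⟨ε, hε⟩ : IsSquare (δ * D) := by
    rw [hδ, hm]
    exact nm_sq σ D m
  obtain ⟨k, hkk⟩ := exists_sl h (ε := ε) (by
    change δ * w1 0 * w2 1 - w2 0 * (δ * w1 1) = ε * ε
    rw [hdh, hε])
  have hgh : (g * frG σ h).1 = ν⁻¹ • h.1 := by
    ext i j
    rw [Matrix.smul_apply, smul_eq_mul]
    rw [gl_mul_apply, frG_apply, frG_apply]
    have e1 := congrFun hw1 i
    have e2 := congrFun hw2 i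
    rw [semi_apply] at e1 e2
    fin_cases j
    · change g i 0 * σ (δ * w1 0) + g i 1 * σ (δ * w1 1) = ν⁻¹ * h i 0
      have e3 : h i 0 = δ * w1 i := by fin_cases i <;> rfl
      rw [e3, ← e1, map_mul, map_mul, hδf]
      field_simp
    · change g i 0 * σ (w2 0) + g i 1 * σ (w2 1) = ν⁻¹ * h i 1
      have e3 : h i 1 = w2 i := by fin_cases i <;> rfl
      rw [e3, ← e2]
      field_simp
  refine ⟨mk k, fun B => ?_⟩
  have h3 : f (mk (cj h B)) = mk (cj h (fr σ B)) := by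
    rw [hf, fr_cj, ← cj_mul, cj_smul hgh]
  rw [hkk, hkk] at h3
  rw [← map_inv, MulAut.mul_apply, MulAut.mul_apply, MulAut.conj_apply, MulAut.conj_apply,
    _root_.inv_inv, ← map_inv, ← map_mul, ← map_mul, h3, ← map_mul, ← map_mul]
  congr 1
  group

end Pool.Agent.BSpi.PSL
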