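import Pool.Agent.BSpi.PSL.Outer
import Pool.Agent.BSpi.AltMain

set_option autoImplicit false
set_option linter.unusedSimpArgs false

open Matrix Matrix.SpecialLinearGroup
open scoped MatrixGroups

namespace Pool.Agent.BSpi.PSL

variable {F : Type} [Field F]

lemma nrm_one (g : GL (Fin 2) F) (k : ℕ) : nrm 1 g k = g ^ k := by
  induction k with
  | zero => rfl
  | succ k ih =>
    change nrm 1 g k * frG (1 ^ k) g = _
    rw [ih, one_pow, frG_one, pow_succ]

/-- Automorphisms of odd order with trivial field automorphism are inner. -/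
lemma inner {f : MulAut (P F)} {g : GL (Fin 2) F} {r : ℕ} (hr : r.Prime) (hr2 : r ≠ 2)
    (hf : Rep f g 1) (hfr : f ^ r = 1) : ∃ s : P F, f = MulAut.conj s := by
  have hk := hf.pow r
  rw [hfr, nrm_one] at hk
  obtain ⟨-, h00, h01, h10, h11⟩ := hk.kernel
  obtain ⟨m, hm⟩ := hr.odd_of_ne_two hr2
  set D := g 0 0 * g 1 1 - g 0 1 * g 1 0 with hD
  have hDg : Matrix.det g.1 = D := by rw [Matrix.det_fin_two]
  have hDr : D ^ r = (g ^ r) 0 0 * (g ^ r) 0 0 := by
    rw [← hDg, ← Matrix.det_pow, ← Units.val_pow_eq_pow_val, Matrix.det_fin_two]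
    change (g ^ r) 0 0 * (g ^ r) 1 1 - (g ^ r) 0 1 * (g ^ r) 1 0 = _
    rw [h01, h11]
    ring
  obtain ⟨k, hk⟩ := exists_sl g (ε := D ^ (m + 1) / (g ^ r) 0 0) (by
    change D = _
    rw [div_mul_div_comm, ← hDr, ← pow_add]
    have h2 : m + 1 + (m + 1) = r + 1 := by omega
    rw [h2, pow_succ]
    have h3 : D ^ r ≠ 0 := by rw [hDr]; exact mul_ne_zero h00 h00
    field_simp)
  refine ⟨mk k, ?_⟩
  ext x
  obtain ⟨A, rfl⟩ := mk_surjective x
  rw [hf, hk, fr_one, MulAut.conj_apply, map_mul, map_mul, map_inv]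

/-- Field automorphisms of the same prime order are powers of each other. -/
lemma gal [Finite F] (p : ℕ) [Fact p.Prime] [CharP F p] {σ τ : F ≃+* F}
    (h : orderOf σ = orderOf τ) : ∃ j : ℕ, τ = σ ^ j := by
  let _ : Algebra (ZMod p) F := ZMod.algebra F p
  let E : (F ≃+* F) →* Gal(F/(ZMod p)) :=
    { toFun := fun σ => AlgEquiv.ofRingEquiv (f := σ) (fun x => by
        have h1 : (σ : F →+* F).comp (algebraMap (ZMod p) F) = algebraMap (ZMod p) F :=
          RingHom.ext_zmod _ _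
        exact congrArg (fun f : ZMod p →+* F => f x) h1)
      map_one' := by
        ext x
        rfl
      map_mul' := fun a b => by
        ext x
        rfl }
  have hE : Function.Injective E := by
    intro a b hab
    ext x
    exact congrArg (fun f : Gal(F/(ZMod p)) => f x) hab
  have h1 : orderOf (E σ) = orderOf (E τ) := by
    rw [orderOf_injective E hE, orderOf_injective E hE, h]
  have h2 := mem_zpowers_of_cyclic h1
  rw [← mem_powers_iff_mem_zpowers] at h2
  obtain ⟨j, hj⟩ := h2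
  exact ⟨j, hE (by rw [map_pow]; exact hj.symm)⟩

/-- Outer automorphisms of the same odd prime order are conjugate up to powers. -/
lemma rigid_outer [Finite F] (p : ℕ) [Fact p.Prime] [CharP F p] {r : ℕ} (hr : r.Prime)
    (hr2 : r ≠ 2) (f f' : MulAut (P F)) (hf : orderOf f = r) (hf' : orderOf f' = r)
    (hn : ∀ s, f ≠ MulAut.conj s) (hn' : ∀ s, f' ≠ MulAut.conj s) :
    ∃ (a : P F) (j : ℕ), f' = (MulAut.conj a * f * (MulAut.conj a)⁻¹) ^ j := by
  obtain ⟨g, σ, hR⟩ := exists_rep p f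
  obtain ⟨g', σ', hR'⟩ := exists_rep p f'
  have hfr : f ^ r = 1 := by rw [← hf]; exact pow_orderOf_eq_one f
  have hfr' : f' ^ r = 1 := by rw [← hf']; exact pow_orderOf_eq_one f'
  have hσ : σ ≠ 1 := by
    rintro rfl
    obtain ⟨s, hs⟩ := inner hr hr2 hR hfr
    exact hn s hs
  have hσ' : σ' ≠ 1 := by
    rintro rfl
    obtain ⟨s, hs⟩ := inner hr hr2 hR' hfr'
    exact hn' s hs
  have h1 : σ ^ r = 1 := by
    have := hR.pow r
    rw [hfr] at this
    exact this.kernel.1
  have h1' : σ' ^ r = 1 := by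
    have := hR'.pow r
    rw [hfr'] at this
    exact this.kernel.1
  have := Fact.mk hr
  obtain ⟨j, hj⟩ := gal p (σ := σ) (τ := σ') (by
    rw [orderOf_eq_prime h1 hσ, orderOf_eq_prime h1' hσ'])
  obtain ⟨s, hs⟩ := outer hr hr2 hR hfr hσ
  obtain ⟨s', hs'⟩ := outer hr hr2 hR' hfr' hσ'
  have hpow : ∀ (k : ℕ) (B : SL(2, F)),
      (((MulAut.conj s)⁻¹ * f * MulAut.conj s) ^ k) (mk B) = mk (fr (σ ^ k) B) := by
    intro k
    induction k with
    | zero => intro B; rw [pow_zero, pow_zero, MulAut.one_apply, fr_one]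
    | succ k ih => intro B; rw [pow_succ, MulAut.mul_apply, hs, ih, pow_succ, fr_mul]
  have heq : (MulAut.conj s')⁻¹ * f' * MulAut.conj s' =
      ((MulAut.conj s)⁻¹ * f * MulAut.conj s) ^ j := by
    ext x
    obtain ⟨A, rfl⟩ := mk_surjective x
    rw [hs', hpow, hj]
  refine ⟨s' * s⁻¹, j, ?_⟩
  have h5 : f' = MulAut.conj s' * ((MulAut.conj s')⁻¹ * f' * MulAut.conj s') *
      (MulAut.conj s')⁻¹ := by group
  rw [h5, heq, ← conj_pow]
  congr 1
  rw [map_mul, map_inv]
  group

end Pool.Agent.BSpi.PSL
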